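import Pool.Agent.Lib.PTg.Defs

/-!
Module ClassG: counting in one class of the presieve (template `PTr/Class.lean`).
-/

set_option autoImplicit false

namespace Pool.Agent.PTg

open Finset Pool.Agent.GapSieve Pool.Agent.PosProp Pool.Agent.PTr Pool.Agent.PTa

private lemma class_wp_nonneg {g : ℝ → ℝ} (hg : ∀ x, 0 ≤ g x) (X : ℝ) (n : ℕ) :
    0 ≤ wp g X n := by
  unfold wp
  split_ifs with h
  · exact mul_nonneg (Real.log_natCast_nonneg n) (hg _)
  · exact le_rfl

private lemma class_primorial {q z : ℕ} (hq : q.Prime) (h : q ∣ primorial z) : q ≤ z := by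
  unfold primorial at h
  rw [hq.prime.dvd_finsetProd_iff] at h
  obtain ⟨p, hp, hqp⟩ := h
  rw [mem_filter, mem_range] at hp
  have h1 := (Nat.prime_dvd_prime_iff_eq hq hp.2).1 hqp
  omega

private lemma class_log_le_sqrt {X : ℝ} (hX : 1 ≤ X) : Real.log X / 64 ≤ √X := by
  have h0 : 0 < X := by linarith
  have h1 : Real.log (√X) = Real.log X / 2 := Real.log_sqrt h0.le
  have h2 : Real.log (√X) ≤ √X - 1 := Real.log_le_sub_one_of_pos (Real.sqrt_pos.2 h0)
  have h3 : 0 ≤ Real.log X := Real.log_nonneg hX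
  have h4 : 0 ≤ √X := Real.sqrt_nonneg X
  linarith

private lemma class_presieve {F : Finset (ℤ × ℤ)} {X : ℝ} {c n : ℕ} (hX : 1 ≤ X)
    (hn : n % PX X = c) {f : ℤ × ℤ} (hf : f ∈ F) (hns : f ∉ sitesG F (PX X) c) :
    ∃ q : ℕ, q.Prime ∧ (q : ℝ) ≤ √X ∧ (q : ℤ) ∣ f.1 * n + f.2 := by
  have h1 : Int.gcd (f.1 * c + f.2) (PX X) ≠ 1 := by
    intro h
    apply hns
    unfold sitesG
    rw [mem_filter]
    exact ⟨hf, h⟩
  obtain ⟨r, hr, hrd⟩ := Nat.exists_prime_and_dvd h1
  have h2 : (r : ℤ) ∣ f.1 * c + f.2 := (Int.natCast_dvd_natCast.2 hrd).trans (Int.gcd_dvd_left ..)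
  have h3 : (r : ℤ) ∣ (PX X : ℤ) := (Int.natCast_dvd_natCast.2 hrd).trans (Int.gcd_dvd_right ..)
  have h4 : r ∣ PX X := Int.natCast_dvd_natCast.1 h3
  have h5 : r ≤ ⌊Real.log X / 64⌋₊ := class_primorial hr h4
  refine ⟨r, hr, ?_, ?_⟩
  · have h6 : 0 ≤ Real.log X / 64 := div_nonneg (Real.log_nonneg hX) (by norm_num)
    have h7 : (r : ℝ) ≤ Real.log X / 64 := (Nat.le_floor_iff h6).1 h5
    exact h7.trans (class_log_le_sqrt hX)
  · have h6 : (n : ℤ) = PX X * (n / PX X : ℕ) + c := by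
      have := Nat.div_add_mod n (PX X)
      rw [hn] at this
      exact_mod_cast this.symm
    have h7 : f.1 * (n : ℤ) + f.2 = (f.1 * c + f.2) + PX X * ((n / PX X : ℕ) * f.1) := by
      rw [h6]
      ring
    rw [h7]
    exact dvd_add h2 (Dvd.dvd.mul_right h3 _)

private lemma class_num {L : ℝ} (hL : 100 ≤ L) : L ^ 14 ≤ ((⌈L⌉₊ ^ 14 : ℕ) : ℝ) ∧
    Real.log ((⌈L⌉₊ ^ 14 : ℕ) : ℝ) ≤ 28 * Real.log L ∧ 3 ≤ ⌈L⌉₊ ^ 14 := by
  have h0 : L ≤ (⌈L⌉₊ : ℝ) := Nat.le_ceil L
  have h1 : (⌈L⌉₊ : ℝ) < L + 1 := Nat.ceil_lt_add_one (by linarith)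
  refine ⟨?_, ?_, ?_⟩
  · push_cast
    exact pow_le_pow_left₀ (by linarith) h0 14
  · push_cast
    rw [Real.log_pow]
    have h2 : Real.log (⌈L⌉₊ : ℝ) ≤ Real.log (L ^ 2) := by
      refine Real.log_le_log (by linarith) ?_
      nlinarith
    rw [Real.log_pow] at h2
    push_cast at h2 ⊢
    linarith
  · have h2 : 3 ≤ ⌈L⌉₊ := by
      have : (3 : ℝ) ≤ (⌈L⌉₊ : ℝ) := by linarith
      exact_mod_cast this
    calc 3 ≤ ⌈L⌉₊ := h2
      _ = ⌈L⌉₊ ^ 1 := (pow_one _).symm
      _ ≤ ⌈L⌉₊ ^ 14 := Nat.pow_le_pow_right (by omega) (by norm_num)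

private lemma class_err {A C η c1 L N Z T X P Pt : ℝ} (hA : 1 ≤ A) (hC : 0 < C) (hL : 100 ≤ L)
    (hN : N ≤ A * L) (hZ : L ^ 14 ≤ Z) (hsm : 3 * A * C ≤ 32 * η * c1 * L)
    (hPt : 0 < Pt) (hX : 0 < X) (hP : P ≤ C * X * L ^ 4) (hP0 : 0 ≤ P) (hη : 0 < η)
    (hT : c1 * X / Pt ≤ T) :
    3 * √(N / Z) / Pt * P * (L / 32) ≤ η * T := by
  have hL0 : 0 < L := by linarith
  have hZ0 : 0 < Z := lt_of_lt_of_le (by positivity) hZ
  have h1 : √(N / Z) ≤ A / L ^ 6 := by
    refine Real.sqrt_le_iff.2 ⟨by positivity, ?_⟩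
    rw [div_pow, div_le_div_iff₀ hZ0 (by positivity)]
    have h2 : N * (L ^ 6) ^ 2 ≤ A * L * (L ^ 6) ^ 2 := mul_le_mul_of_nonneg_right hN (by positivity)
    have h3 : A * L * (L ^ 6) ^ 2 ≤ A ^ 2 * L ^ 14 := by
      have h4 : A * L * (L ^ 6) ^ 2 = A * L ^ 13 := by ring
      have h5 : A ^ 2 * L ^ 14 = (A * L) * (A * L ^ 13) := by ring
      rw [h4, h5]
      have h6 : 1 ≤ A * L := by nlinarith
      exact le_mul_of_one_le_left (by positivity) h6
    have h7 : A ^ 2 * L ^ 14 ≤ A ^ 2 * Z := mul_le_mul_of_nonneg_left hZ (by positivity)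
    linarith
  have h2 : 3 * √(N / Z) / Pt * P * (L / 32) ≤ 3 * (A / L ^ 6) / Pt * (C * X * L ^ 4) * (L / 32) := by
    have h3 : 0 ≤ √(N / Z) := Real.sqrt_nonneg _
    gcongr
  have h3 : 3 * (A / L ^ 6) / Pt * (C * X * L ^ 4) * (L / 32) = 3 * A * C * X / (32 * L * Pt) := by
    field_simp
  have h4 : 3 * A * C * X / (32 * L * Pt) ≤ η * (c1 * X / Pt) := by
    rw [← mul_div_assoc, div_le_div_iff₀ (by positivity) hPt]
    have h5 := mul_le_mul_of_nonneg_right hsm (by positivity : 0 ≤ X * Pt)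
    calc 3 * A * C * X * Pt = 3 * A * C * (X * Pt) := by ring
      _ ≤ 32 * η * c1 * L * (X * Pt) := h5
      _ = _ := by ring
  have h5 : η * (c1 * X / Pt) ≤ η * T := mul_le_mul_of_nonneg_left hT hη.le
  linarith

theorem ClassG_p (h1 : PosDensTStmt) (h2 : FamStmt) (h3 : TBnStmt) (h4 : HitGStmt)
    (h5 : DDleStmt) (h6' : PXleStmt) : ClassGStmt := by
  classical
  intro α β φ hNB lam C0 A hlam hC0 hA c1 hc1
  have hφ : ∀ x, 0 ≤ φ x := hNB.nonneg
  obtain ⟨ε, hε, hε1, c, hc, η, hη, hPD⟩ := h1 (2 * Real.exp 9) 6 (1000 * A)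
    (by have := Real.add_one_le_exp 9; linarith) (by norm_num) (by linarith)
  obtain ⟨C, X1, hC, hTB⟩ := h3 α β φ hNB
  obtain ⟨X1', hDD⟩ := h5 lam C0 hlam hC0
  have hlog : ∀ᶠ L : ℝ in Filter.atTop, 28 * Real.log L ≤ η * (L / 32) := by
    have h6 := Real.isLittleO_log_id_atTop.def (c := η / 896) (by positivity)
    filter_upwards [h6, Filter.eventually_ge_atTop 1] with L hL hL1
    rw [id, Real.norm_eq_abs, Real.norm_eq_abs, abs_of_nonneg (Real.log_nonneg hL1),
      abs_of_nonneg (by linarith : (0 : ℝ) ≤ L)] at hL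
    linarith
  have hev : ∀ᶠ L : ℝ in Filter.atTop, 28 * Real.log L ≤ η * (L / 32) ∧ 100 ≤ L ∧
      32 / η ≤ L ∧ 2 * A ≤ L ∧ 4 * A ^ 2 / η ≤ L ∧
      3 * A * C / (32 * η * c1) ≤ L := by
    filter_upwards [hlog, Filter.eventually_ge_atTop 100, Filter.eventually_ge_atTop (32 / η),
      Filter.eventually_ge_atTop (2 * A), Filter.eventually_ge_atTop (4 * A ^ 2 / η),
      Filter.eventually_ge_atTop (3 * A * C / (32 * η * c1))] with L a1 a2 a3 a6 a7 a8
    exact ⟨a1, a2, a3, a6, a7, a8⟩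
  have hev2 := Real.tendsto_log_atTop.eventually hev
  obtain ⟨X2, hX2⟩ := Filter.eventually_atTop.1
    (hev2.and (Filter.eventually_ge_atTop (max (max X1 X1') 17)))
  refine ⟨min c 1, X2, lt_min hc one_pos, fun X hX F hF hFc cl hcP hcop hS hM => ?_⟩
  obtain ⟨⟨g1, g2, g3, g6, g7, g8⟩, hXm⟩ := hX2 X hX
  have hXX1 : X1 ≤ X := (le_max_left _ _).trans ((le_max_left _ _).trans hXm)
  have hXX1' : X1' ≤ X := (le_max_right _ _).trans ((le_max_left _ _).trans hXm)
  have hX17 : 17 ≤ X := (le_max_right _ _).trans hXm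
  have hX0 : 0 < X := by linarith
  have hX1 : 1 ≤ X := by linarith
  obtain ⟨hD0, hω⟩ := hDD X hXX1' F hF hFc
  set L := Real.log X with hL
  have hL0 : 0 < L := by linarith
  have hXL : X = Real.exp L := (Real.exp_log hX0).symm
  set P := PX X with hP
  have hP0 : 0 < P := primorial_pos _
  have hPt : (0 : ℝ) < P.totient := by exact_mod_cast Nat.totient_pos.2 hP0
  have hw := class_wp_nonneg hφ X
  have hMnn : 0 ≤ ∑ n ∈ (PA X).filter (fun n => n % P = cl), wp φ X n :=
    sum_nonneg fun n _ => hw n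
  by_cases hS0 : (sitesG F P cl).Nonempty
  swap
  · -- no sites: everything is good
    have hsub : (PA X).filter (fun n => n % P = cl) ⊆
        (PA X).filter (fun n => n % P = cl ∧ gdg F (√X) n) := by
      intro n hn
      rw [mem_filter] at hn ⊢
      refine ⟨hn.1, hn.2, fun f hf => ?_⟩
      refine class_presieve hX1 hn.2 hf ?_
      intro hmem
      exact hS0 ⟨f, hmem⟩
    calc min c 1 * ∑ n ∈ (PA X).filter (fun n => n % P = cl), wp φ X n
        ≤ 1 * ∑ n ∈ (PA X).filter (fun n => n % P = cl), wp φ X n :=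
          mul_le_mul_of_nonneg_right (min_le_right _ _) hMnn
      _ = ∑ n ∈ (PA X).filter (fun n => n % P = cl), wp φ X n := one_mul _
      _ ≤ _ := sum_le_sum_of_subset_of_nonneg hsub fun n _ _ => hw n
  · -- the main case
    obtain ⟨z1, z2, z3⟩ := class_num g2
    generalize ⌈L⌉₊ ^ 14 = Z at z1 z2 z3
    set S := sitesG F P cl with hSdef
    set N := S.card with hN
    have hN0 : 0 < N := card_pos.2 hS0
    set s : Fin N → ℤ × ℤ := fun i => (S.equivFin.symm i : ℤ × ℤ) with hs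
    have hsS : ∀ i, s i ∈ S := fun i => (S.equivFin.symm i).2
    have hinj : Function.Injective s := by
      intro i j hij
      exact S.equivFin.symm.injective (Subtype.ext hij)
    have hSF : S ⊆ F := filter_subset _ _
    have hlogL : 1 ≤ Real.log L := by
      rw [Real.le_log_iff_exp_le hL0]
      have := Real.exp_one_lt_d9
      linarith
    have hZR : (0 : ℝ) < Z := by
      have : (3 : ℝ) ≤ Z := by exact_mod_cast z3
      linarith
    have hLL : L ^ 2 ≤ L ^ 14 := pow_le_pow_right₀ (by linarith) (by norm_num)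
    have hL2 : L ≤ L ^ 2 := by nlinarith
    have hNA : (N : ℝ) ≤ A * L := by
      refine hS.trans ?_
      exact div_le_self (by positivity) hlogL
    have hNZ : 2 * N ≤ Z := by
      have : 2 * (N : ℝ) ≤ Z := by nlinarith
      exact_mod_cast this
    have hωZ : (DD F).primeFactors.card ≤ Z := by
      have h6 : L ^ 4 ≤ L ^ 14 := pow_le_pow_right₀ (by linarith) (by norm_num)
      have : ((DD F).primeFactors.card : ℝ) ≤ Z := hω.trans (h6.trans z1)
      exact_mod_cast this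
    have hsys := h4 F (X ^ C0) Z N (ε * (L / 32)) s hF (by omega) hinj (fun i => hSF (hsS i))
    set Q := Qa (DD F) Z (ε * (L / 32)) with hQ
    have hexp : Real.exp (ε * (L / 32)) ≤ √X := by
      have h6 : √X = Real.exp (L / 2) := by
        rw [hXL]
        rw [Real.sqrt_eq_iff_mul_self_eq (Real.exp_pos _).le (Real.exp_pos _).le, ← Real.exp_add]
        congr 1
        ring
      rw [h6]
      refine Real.exp_le_exp.2 ?_
      nlinarith
    have hsq : √X < X / 4 := by
      rw [Real.sqrt_lt' (by linarith)]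
      nlinarith
    have hLX : L ≤ X := by
      have := Real.log_le_sub_one_of_pos hX0
      linarith
    have hPAq : ∀ n ∈ PA X, n.Prime ∧ X / 4 < n := fun n hn => (mem_filter.1 hn).2
    have hfloor : (⌊L / 64⌋₊ : ℝ) ≤ L / 64 := Nat.floor_le (by positivity)
    have hPcop : P.Coprime (∏ q ∈ Q, q) := by
      refine Nat.Coprime.prod_right fun q hq => ?_
      obtain ⟨q1, q2, q3, q4⟩ := mem_Qa.1 hq
      rw [Nat.coprime_comm, Nat.Prime.coprime_iff_not_dvd q3]
      intro hd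
      have h6 := class_primorial q3 hd
      have h7 : (q : ℝ) ≤ L / 64 := le_trans (by exact_mod_cast h6) hfloor
      have h8 : (Z : ℝ) < q := by exact_mod_cast q1
      linarith
    have hAcop : ∀ n ∈ PA X, n.Coprime (P * ∏ q ∈ Q, q) := by
      intro n hn
      obtain ⟨n1, n2⟩ := hPAq n hn
      refine Nat.Coprime.mul_right ?_ (Nat.Coprime.prod_right fun q hq => ?_)
      · rw [Nat.Prime.coprime_iff_not_dvd n1]
        intro hd
        have h6 := class_primorial n1 hd
        have h7 : (n : ℝ) ≤ L / 64 := le_trans (by exact_mod_cast h6) hfloor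
        linarith
      · obtain ⟨q1, q2, q3, q4⟩ := mem_Qa.1 hq
        rw [Nat.coprime_primes n1 q3]
        rintro rfl
        linarith
    have hlZ1 : 1 ≤ Real.log Z := by
      rw [Real.le_log_iff_exp_le hZR]
      have := Real.exp_one_lt_d9
      have : (3 : ℝ) ≤ Z := by exact_mod_cast z3
      linarith
    have hLη : 1 / η ≤ L / 32 := by
      rw [div_le_iff₀ hη] at g3 ⊢
      linarith
    have hZS : (S.card : ℝ) ^ 2 * (4 / Z) ≤ η := by
      have h6 : 4 * A ^ 2 ≤ η * L := by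
        rw [div_le_iff₀ hη] at g7
        linarith
      have h7 : (N : ℝ) ^ 2 ≤ (A * L) ^ 2 := pow_le_pow_left₀ (Nat.cast_nonneg _) hNA 2
      have h8 : (S.card : ℝ) ^ 2 * (4 / Z) = (N : ℝ) ^ 2 * 4 / Z := by
        rw [hN]
        ring
      rw [h8, div_le_iff₀ hZR]
      have h9 : L ^ 3 ≤ L ^ 14 := pow_le_pow_right₀ (by linarith) (by norm_num)
      calc (N : ℝ) ^ 2 * 4 ≤ (A * L) ^ 2 * 4 := by linarith
        _ = (4 * A ^ 2) * L ^ 2 := by ring
        _ ≤ (η * L) * L ^ 2 := mul_le_mul_of_nonneg_right h6 (by positivity)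
        _ = η * L ^ 3 := by ring
        _ ≤ η * Z := mul_le_mul_of_nonneg_left (h9.trans z1) hη.le
    -- the error term
    have hPX : (P : ℝ) ≤ X ^ ((1 : ℝ) / 32) := h6' X hX1
    have hF20 : (⌊(P : ℝ) * Real.exp (L / 32 / 2)⌋₊ : ℝ) ^ 20 ≤ X := by
      have h6 : (⌊(P : ℝ) * Real.exp (L / 32 / 2)⌋₊ : ℝ) ≤ Real.exp (3 * L / 64) := by
        refine (Nat.floor_le (by positivity)).trans ?_
        have h7 : X ^ ((1 : ℝ) / 32) = Real.exp (L / 32) := by
          rw [Real.rpow_def_of_pos hX0]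
          congr 1
          rw [← hL]
          ring
        rw [h7] at hPX
        calc (P : ℝ) * Real.exp (L / 32 / 2) ≤ Real.exp (L / 32) * Real.exp (L / 32 / 2) :=
              mul_le_mul_of_nonneg_right hPX (Real.exp_pos _).le
          _ = Real.exp (3 * L / 64) := by
              rw [← Real.exp_add]
              congr 1
              ring
      calc (⌊(P : ℝ) * Real.exp (L / 32 / 2)⌋₊ : ℝ) ^ 20 ≤ (Real.exp (3 * L / 64)) ^ 20 :=
            pow_le_pow_left₀ (by positivity) h6 20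
        _ = Real.exp (20 * (3 * L / 64)) := by
            rw [← Real.exp_nat_mul]
            norm_num
        _ ≤ Real.exp L := Real.exp_le_exp.2 (by linarith)
        _ = X := hXL.symm
    have hPS := hTB X hXX1 _ hF20
    have hPS0 : 0 ≤ PTr.PSum (PA X) (wp φ X) ⌊(P : ℝ) * Real.exp (L / 32 / 2)⌋₊ := by
      unfold PTr.PSum
      refine sum_nonneg fun f _ => sum_nonneg fun ψ _ => ?_
      split_ifs
      · exact norm_nonneg _
      · exact le_rfl
    have hsm : 3 * A * C ≤ 32 * η * c1 * L := by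
      rw [div_le_iff₀ (by positivity)] at g8
      linarith
    have herr := class_err (N := (N : ℝ)) (Z := (Z : ℝ)) hA hC g2 hNA z1 hsm hPt
      hX0 hPS hPS0 hη hM
    have hq0 : (((Z + 1 : ℕ) : ℝ) - 1) = Z := by
      push_cast
      ring
    have key := h2 (2 * Real.exp 9) 6 (1000 * A) ε c η hPD N Q
      (fun q (i : Fin N) t => (q : ℤ) ∣ (s i).1 * t + (s i).2) (L / 32) (Real.log Z) hsys hN0 hLη
      (by positivity) hlZ1 (z2.trans g1) ?_ ?_ ?_ ?_ ?_ ?_ ?_ ?_ P cl hP0 hPcop hcP hcop (Z + 1)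
      (fun q hq => (mem_Qa.1 hq).1) (by omega) (PA X) (wp φ X) hAcop (fun n _ => hw n)
      (by rw [hq0]; exact herr)
    · calc min c 1 * ∑ n ∈ (PA X).filter (fun n => n % P = cl), wp φ X n
          ≤ c * ∑ n ∈ (PA X).filter (fun n => n % P = cl), wp φ X n :=
            mul_le_mul_of_nonneg_right (min_le_left _ _) hMnn
        _ ≤ _ := key
        _ ≤ _ := by
            refine sum_le_sum_of_subset_of_nonneg ?_ fun n _ _ => hw n
            intro n hn
            simp only [mem_filter] at hn ⊢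
            obtain ⟨m1, m2, m3⟩ := hn
            refine ⟨m1, m2, fun t ht => ?_⟩
            by_cases htS : t ∈ S
            · obtain ⟨i, hi⟩ : ∃ i, s i = t :=
                ⟨S.equivFin ⟨t, htS⟩, by rw [hs]; simp⟩
              obtain ⟨q, hq, hqd⟩ := m3 i
              obtain ⟨q1, q2, q3, q4⟩ := mem_Qa.1 hq
              exact ⟨q, q3, q2.trans hexp, by rw [← hi]; exact hqd⟩
            · exact class_presieve hX1 m2 ht htS
    · have h6 : (N : ℝ) ≤ A * L / Real.log L := hS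
      calc (N : ℝ) * Real.log Z ≤ (A * L / Real.log L) * (28 * Real.log L) :=
            mul_le_mul h6 z2 (by linarith) (by positivity)
        _ = 28 * (A * L) := by
            field_simp
        _ ≤ 1000 * A * (L / 32) := by nlinarith
    · intro q hq
      exact Real.log_lt_log hZR (by exact_mod_cast (mem_Qa.1 hq).1)
    · intro q hq
      obtain ⟨_, h2, h3, _⟩ := mem_Qa.1 hq
      rw [Real.log_le_iff_le_exp (by exact_mod_cast h3.pos)]
      exact h2
    · intro q hq
      have h1 := (mem_Qa.1 hq).1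
      have h2 := pp_one_le (N := N) (q := q) hN0 (by omega)
      refine h2.trans ?_
      have h4 : 4 ≤ q := by omega
      have h5 : (4 : ℝ) ≤ q := by exact_mod_cast h4
      rw [div_le_div_iff₀ (by linarith) (by norm_num)]
      linarith
    · intro u v hu huv hv
      exact Qa_H1 hD0 z3 hωZ hN0 hNZ u v hu huv hv
    · intro v hv _
      exact Qa_H2 hN0 hNZ v hv
    · refine (Qa_inv_sq (by omega)).trans ?_
      rw [div_le_one hZR]
      have : (3 : ℝ) ≤ Z := by exact_mod_cast z3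
      linarith
    · have h1 := Qa_pp_sq (a := DD F) (Z := Z) (y := ε * (L / 32)) (by omega) hN0 hNZ
      exact (mul_le_mul_of_nonneg_left h1 (sq_nonneg _)).trans hZS

end Pool.Agent.PTg
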