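import Pool.Agent.Lib.PTg.Defs

/-!
# The number of prime factors of the product of the determinants
-/

set_option autoImplicit false

namespace Pool.Agent.PTg

open Finset Pool.Agent.GapSieve Pool.Agent.PosProp Pool.Agent.PTr Pool.Agent.PTa

private lemma ddle_abs {F : Finset (ℤ × ℤ)} {B : ℝ} (hB : 1 ≤ B) (hF : Adm F B) :
    ((DD F : ℕ) : ℝ) ≤ (B ^ 2) ^ F.card * ((2 * B ^ 2) ^ F.card) ^ F.card := by
  unfold DD
  push_cast
  have hB0 : 0 ≤ B := by linarith
  have h1 : ∀ f ∈ F, (((f.1 * f.2).natAbs : ℕ) : ℝ) ≤ B ^ 2 := by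
    intro f hf
    rw [Nat.cast_natAbs, Int.cast_abs]
    push_cast
    rw [abs_mul]
    calc |(f.1 : ℝ)| * |(f.2 : ℝ)| ≤ B * B :=
          mul_le_mul (hF.le1 f hf) (hF.le2 f hf) (abs_nonneg _) hB0
      _ = B ^ 2 := by ring
  have h2 : ∀ f ∈ F, ∀ f' ∈ F,
      (((f.1 * f'.2 - f'.1 * f.2).natAbs : ℕ) : ℝ) ≤ 2 * B ^ 2 := by
    intro f hf f' hf'
    rw [Nat.cast_natAbs, Int.cast_abs]
    push_cast
    refine (abs_sub _ _).trans ?_
    rw [abs_mul, abs_mul]
    have e1 : |(f.1 : ℝ)| * |(f'.2 : ℝ)| ≤ B * B :=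
      mul_le_mul (hF.le1 f hf) (hF.le2 f' hf') (abs_nonneg _) hB0
    have e2 : |(f'.1 : ℝ)| * |(f.2 : ℝ)| ≤ B * B :=
      mul_le_mul (hF.le1 f' hf') (hF.le2 f hf) (abs_nonneg _) hB0
    calc _ ≤ B * B + B * B := add_le_add e1 e2
      _ = 2 * B ^ 2 := by ring
  have h3 : ∏ f ∈ F, (((f.1 * f.2).natAbs : ℕ) : ℝ) ≤ (B ^ 2) ^ F.card := by
    rw [← Finset.prod_const]
    exact Finset.prod_le_prod (fun f _ => Nat.cast_nonneg _) h1
  have hone : (1 : ℝ) ≤ 2 * B ^ 2 := by nlinarith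
  have h4 : ∏ f ∈ F, ∏ f' ∈ F.erase f, (((f.1 * f'.2 - f'.1 * f.2).natAbs : ℕ) : ℝ) ≤
      ((2 * B ^ 2) ^ F.card) ^ F.card := by
    rw [← Finset.prod_const]
    refine Finset.prod_le_prod (fun f _ => Finset.prod_nonneg fun f' _ => Nat.cast_nonneg _) ?_
    intro f hf
    calc ∏ f' ∈ F.erase f, (((f.1 * f'.2 - f'.1 * f.2).natAbs : ℕ) : ℝ)
        ≤ ∏ f' ∈ F.erase f, (2 * B ^ 2) :=
          Finset.prod_le_prod (fun f' _ => Nat.cast_nonneg _)
            (fun f' hf' => h2 f hf f' (Finset.mem_of_mem_erase hf'))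
      _ = (2 * B ^ 2) ^ (F.erase f).card := by rw [Finset.prod_const]
      _ ≤ (2 * B ^ 2) ^ F.card := pow_le_pow_right₀ hone (Finset.card_le_card (Finset.erase_subset _ _))
  refine mul_le_mul ?_ ?_ ?_ (by positivity)
  · simpa [Nat.cast_natAbs] using h3
  · simpa [Nat.cast_natAbs] using h4
  · exact Finset.prod_nonneg fun f _ => Finset.prod_nonneg fun f' _ => by positivity

/-- **DDle** -/
theorem DDle_p : DDleStmt := by
  intro lam C hlam hC
  refine ⟨Real.exp (1 + 20 * C * lam ^ 2), fun X hX F hF hcard => ?_⟩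
  have hX0 : 0 < X := (Real.exp_pos _).trans_le hX
  set L := Real.log X with hL
  have hLb : 1 + 20 * C * lam ^ 2 ≤ L := by
    rw [hL, Real.le_log_iff_exp_le hX0]
    exact hX
  have hl2 : 1 ≤ lam ^ 2 := one_le_pow₀ hlam
  have hCl : 1 ≤ C * lam ^ 2 := one_le_mul_of_one_le_of_one_le hC hl2
  have hL1 : 1 ≤ L := by linarith
  have hX1 : 1 ≤ X := by
    rw [← Real.exp_log hX0, ← hL]
    exact Real.one_le_exp (by linarith)
  have hne : DD F ≠ 0 := by
    unfold DD
    refine mul_ne_zero ?_ ?_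
    · rw [Finset.prod_ne_zero_iff]
      intro f hf
      exact Int.natAbs_ne_zero.2 (mul_ne_zero (hF.ne1 f hf) (hF.ne2 f hf))
    · rw [Finset.prod_ne_zero_iff]
      intro f hf
      rw [Finset.prod_ne_zero_iff]
      intro f' hf'
      obtain ⟨h1, h2⟩ := Finset.mem_erase.1 hf'
      exact Int.natAbs_ne_zero.2 (hF.det f hf f' h2 h1.symm)
  refine ⟨hne, ?_⟩
  have hB : 1 ≤ X ^ C := Real.one_le_rpow hX1 (by linarith)
  have hB0 : 0 < X ^ C := by linarith
  have h1 := ddle_abs hB hF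
  have hDpos : (0 : ℝ) < ((DD F : ℕ) : ℝ) := by exact_mod_cast Nat.pos_of_ne_zero hne
  have h2 := Real.log_le_log hDpos h1
  have hlB : Real.log (X ^ C) = C * L := by rw [Real.log_rpow hX0]
  rw [Real.log_mul (by positivity) (by positivity), Real.log_pow, Real.log_pow, Real.log_pow,
    Real.log_pow, Real.log_mul (by norm_num) (by positivity), Real.log_pow, hlB] at h2
  have h3 : (2 : ℝ) ^ (DD F).primeFactors.card ≤ ((DD F : ℕ) : ℝ) := by
    exact_mod_cast LPAP.two_pow_card_primeFactors_le hne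
  have h4 := Real.log_le_log (by positivity) h3
  rw [Real.log_pow] at h4
  have h5 : (1 : ℝ) / 2 ≤ Real.log 2 := by
    have := Real.log_two_gt_d9
    linarith
  have h5' : Real.log 2 ≤ 1 := by
    have := Real.log_two_lt_d9
    linarith
  have h6 : ((DD F).primeFactors.card : ℝ) * (1 / 2) ≤
      ((DD F).primeFactors.card : ℝ) * Real.log 2 :=
    mul_le_mul_of_nonneg_left h5 (Nat.cast_nonneg _)
  have hN0 : (0 : ℝ) ≤ F.card := Nat.cast_nonneg _
  set N : ℝ := (F.card : ℝ) with hN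
  have hlL : 1 ≤ lam * L := one_le_mul_of_one_le_of_one_le hlam hL1
  have hCL : 1 ≤ C * L := one_le_mul_of_one_le_of_one_le hC hL1
  push_cast at h2
  have h7 : N * (2 * (C * L)) ≤ (lam * L) ^ 2 * (2 * (C * L)) := by
    refine mul_le_mul_of_nonneg_right ?_ (by positivity)
    calc N ≤ lam * L := hcard
      _ ≤ (lam * L) ^ 2 := by nlinarith
  have h8 : N * (N * (Real.log 2 + 2 * (C * L))) ≤ (lam * L) ^ 2 * (3 * (C * L)) := by
    have e1 : N * N ≤ (lam * L) ^ 2 := by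
      rw [pow_two]
      exact mul_le_mul hcard hcard hN0 (by positivity)
    calc N * (N * (Real.log 2 + 2 * (C * L))) = (N * N) * (Real.log 2 + 2 * (C * L)) := by ring
      _ ≤ (lam * L) ^ 2 * (3 * (C * L)) :=
          mul_le_mul e1 (by linarith) (by positivity) (by positivity)
  have h9 : ((DD F).primeFactors.card : ℝ) ≤ 2 * ((lam * L) ^ 2 * (5 * (C * L))) := by
    linarith
  refine h9.trans ?_
  calc 2 * ((lam * L) ^ 2 * (5 * (C * L))) = (10 * (C * lam ^ 2)) * L ^ 3 := by ring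
    _ ≤ L * L ^ 3 := mul_le_mul_of_nonneg_right (by linarith) (by positivity)
    _ = L ^ 4 := by ring

end Pool.Agent.PTg
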