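import Pool.Agent.Lib.PTa.Defs

/-!
# Linear forms in a prime variable: definitions and module statements

**Theorem G.** Let `F` be a finite set of pairs `(u, v)` of nonzero integers of size at most `X ^ C`,
pairwise not proportional, with `∑ |u v| / φ(|u v|) ≤ lam log X`. For a positive proportion of the
primes `n` near `X` every `u n + v`, `(u, v) ∈ F`, has a prime factor at most `√X`.

Notation as in `PTr/Defs.lean` and `PTa/Defs.lean`.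
-/

set_option autoImplicit false

namespace Pool.Agent.PTg

open Finset Pool.Agent.GapSieve Pool.Agent.PosProp Pool.Agent.PTr Pool.Agent.PTa

/-- admissible families of forms `u n + v` with coefficients of size at most `B` -/
structure Adm (F : Finset (ℤ × ℤ)) (B : ℝ) : Prop where
  ne1 : ∀ f ∈ F, f.1 ≠ 0
  ne2 : ∀ f ∈ F, f.2 ≠ 0
  le1 : ∀ f ∈ F, |(f.1 : ℝ)| ≤ B
  le2 : ∀ f ∈ F, |(f.2 : ℝ)| ≤ B
  det : ∀ f ∈ F, ∀ f' ∈ F, f ≠ f' → f.1 * f'.2 - f'.1 * f.2 ≠ 0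

/-- the product of the coefficients and of the determinants -/
noncomputable def DD (F : Finset (ℤ × ℤ)) : ℕ :=
  (∏ f ∈ F, (f.1 * f.2).natAbs) *
    ∏ f ∈ F, ∏ f' ∈ F.erase f, (f.1 * f'.2 - f'.1 * f.2).natAbs

/-- the weighted number of forms -/
noncomputable def sF (F : Finset (ℤ × ℤ)) : ℝ :=
  ∑ f ∈ F, ((f.1 * f.2).natAbs : ℝ) / ((f.1 * f.2).natAbs.totient : ℝ)

/-- the forms which survive the presieving in the class `c` -/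
noncomputable def sitesG (F : Finset (ℤ × ℤ)) (P c : ℕ) : Finset (ℤ × ℤ) :=
  F.filter (fun f => Int.gcd (f.1 * c + f.2) P = 1)

/-- all the numbers `u n + v`, `(u, v) ∈ F`, have a prime factor at most `Y` -/
def gdg (F : Finset (ℤ × ℤ)) (Y : ℝ) (n : ℕ) : Prop :=
  ∀ f ∈ F, ∃ q : ℕ, q.Prime ∧ (q : ℝ) ≤ Y ∧ (q : ℤ) ∣ f.1 * n + f.2

/-- **HitG** (template `PTr/HitB.lean`): `q ∈ Qa (DD F) Z y` divides no coefficient and no
determinant. -/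
def HitGStmt : Prop := ∀ (F : Finset (ℤ × ℤ)) (B : ℝ) (Z N : ℕ) (y : ℝ) (s : Fin N → ℤ × ℤ),
  Adm F B → N ≤ Z → Function.Injective s → (∀ i, s i ∈ F) →
  PSys (Qa (DD F) Z y) (fun q (i : Fin N) t => (q : ℤ) ∣ (s i).1 * t + (s i).2)

/-- **DDle**: `log (DD F) ≤ |F| 2 C L + |F|^2 (2 C L + 1)`, and `2 ^ ω ≤ DD F`. -/
def DDleStmt : Prop := ∀ lam C : ℝ, 1 ≤ lam → 1 ≤ C → ∃ X0 : ℝ, ∀ X : ℝ, X0 ≤ X →
  ∀ F : Finset (ℤ × ℤ), Adm F (X ^ C) → (F.card : ℝ) ≤ lam * Real.log X →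
    DD F ≠ 0 ∧ ((DD F).primeFactors.card : ℝ) ≤ Real.log X ^ 4

/-- **SurvG** (template `PTr/Surv.lean`): for `r ∤ u v` the class `c ≡ - v / u` is excluded
besides `0`. -/
def SurvGStmt : Prop := ∃ X0 : ℝ, ∀ X : ℝ, X0 ≤ X → ∀ (F : Finset (ℤ × ℤ)) (B : ℝ), Adm F B →
  ∑ c ∈ (range (PX X)).filter (fun c => c.Coprime (PX X)), ((sitesG F (PX X) c).card : ℝ) ≤
    2 * sF F * (PX X).totient / Real.log (Real.log X)

/-- **ClassG** (template `PTr/Class.lean`; from `PosDensTStmt`, `FamStmt`, `TBnStmt`, `HitGStmt`,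
`DDleStmt`, `PXleStmt`). `Q = Qa (DD F) Z (ε L / 32)`, `Z = ⌈L⌉₊ ^ 14`. -/
def ClassGStmt : Prop := ∀ (α β : ℝ) (g : ℝ → ℝ), NB α β g → ∀ lam C A : ℝ, 1 ≤ lam → 1 ≤ C →
  1 ≤ A → ∀ c1 : ℝ, 0 < c1 → ∃ c2 X0 : ℝ, 0 < c2 ∧ ∀ X : ℝ, X0 ≤ X →
    ∀ F : Finset (ℤ × ℤ), Adm F (X ^ C) → (F.card : ℝ) ≤ lam * Real.log X →
    ∀ c : ℕ, c < PX X → c.Coprime (PX X) →
    ((sitesG F (PX X) c).card : ℝ) ≤ A * Real.log X / Real.log (Real.log X) →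
    c1 * X / (PX X).totient ≤ ∑ n ∈ (PA X).filter (fun n => n % PX X = c), wp g X n →
    open Classical in
    c2 * ∑ n ∈ (PA X).filter (fun n => n % PX X = c), wp g X n ≤
      ∑ n ∈ (PA X).filter (fun n => n % PX X = c ∧ gdg F (√X) n), wp g X n

/-- **GoodG** (template `PTr/Good.lean`; from `ClassGStmt`, `SurvGStmt`, `BTnStmt`, `LowNStmt`,
`PXleStmt`). -/
def GoodGStmt : Prop := ∀ (α β : ℝ) (g : ℝ → ℝ), 1 / 20 ≤ α → β ≤ 1 / 10 → NB α β g →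
  ∀ lam C : ℝ, 1 ≤ lam → 1 ≤ C → ∃ c X0 : ℝ, 0 < c ∧ ∀ X : ℝ, X0 ≤ X →
    ∀ F : Finset (ℤ × ℤ), Adm F (X ^ C) → sF F ≤ lam * Real.log X →
    open Classical in
    c * X ≤ ∑ n ∈ (PA X).filter (fun n => gdg F (√X) n), wp g X n

/-- **FinalG** (template `PTa/FinalA.lean`; from `GoodGStmt`, `NBexStmt`): the forms `n + s a`,
`1 ≤ |s| ≤ K = ⌊nu φ(a) log a / a⌋₊`, and `s n + h`, `1 ≤ s ≤ kap log (4 X) + 1`, `0 < |h| ≤ k`,
`gcd(s, h) = 1`. -/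
def FinalGStmt : Prop := ∀ (k : ℕ) (kap lam mu nu : ℝ), 0 ≤ lam → lam < mu → mu ≤ nu →
  ∃ δ : ℝ, 0 < δ ∧ ∃ A0 : ℕ, ∀ a : ℕ, A0 ≤ a → open Classical in
    δ * (a.totient : ℝ) ≤ (((Ico 1 a).filter (fun b => Nat.Coprime a b ∧
      ∃ q : ℕ, q.Prime ∧ q ≡ b [MOD a] ∧ lam * (a.totient : ℝ) * Real.log a < q ∧
        (q : ℝ) ≤ mu * (a.totient : ℝ) * Real.log a ∧
        (∀ p : ℕ, p.Prime → p ≡ b [MOD a] → (p : ℝ) ≤ nu * (a.totient : ℝ) * Real.log a →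
          p = q) ∧
        ∀ h : ℤ, h ≠ 0 → |h| ≤ k → ∀ p : ℕ, p.Prime → (p : ℤ) ≡ h [ZMOD q] → (p : ℤ) ≠ h →
          kap * (q : ℝ) * Real.log q < p)).card : ℝ)

end Pool.Agent.PTg
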