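import Pool.Agent.Lib.PTg.Defs

/-!
# Isolated primes in residue classes which are moduli with large least primes
-/

set_option autoImplicit false

namespace Pool.Agent.PTg

open Finset Pool.Agent.GapSieve Pool.Agent.PosProp Pool.Agent.PTr Pool.Agent.PTa

/-- the number of prime factors -/
private lemma fin_omega (a : ℕ) (ha : 0 < a) :
    (a.primeFactors.card : ℝ) ≤ Real.log a + 2 := by
  have h1 := LPAP.four_pow_card_le ha.ne'
  have haR : (0 : ℝ) < a := by exact_mod_cast ha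
  have h2 : ((4 : ℝ) ^ a.primeFactors.card) ≤ 16 * a := by exact_mod_cast h1
  have h3 := Real.log_le_log (by positivity) h2
  rw [Real.log_pow, Real.log_mul (by norm_num) haR.ne'] at h3
  have h4 : Real.log 16 = 2 * Real.log 4 := by
    rw [show (16 : ℝ) = 4 ^ 2 by norm_num, Real.log_pow]
    push_cast
    ring
  have h5 : 1 ≤ Real.log 4 := by
    rw [Real.le_log_iff_exp_le (by norm_num)]
    have := Real.exp_one_lt_d9
    linarith
  have h6 : 0 ≤ Real.log a := Real.log_natCast_nonneg a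
  rw [h4] at h3
  have h7 : ((a.primeFactors.card : ℝ) - 2) * Real.log 4 ≤ Real.log a := by linarith
  by_contra hcon
  push Not at hcon
  have h8 : 0 < (a.primeFactors.card : ℝ) - 2 := by linarith
  nlinarith

/-- a lower bound for the totient -/
private lemma fin_tot (a : ℕ) (ha : 0 < a) :
    (a : ℝ) / (Real.log a + 3) ≤ (a.totient : ℝ) := by
  have haR : (0 : ℝ) < a := by exact_mod_cast ha
  have h1 := LPAP.totient_div a ha.ne'
  have h2 := LPAP.prod_one_sub_ge_card a.primeFactors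
    (fun p hp => (Nat.prime_of_mem_primeFactors hp).two_le)
  rw [← h1] at h2
  have h3 := fin_omega a ha
  have h6 : 0 ≤ Real.log a := Real.log_natCast_nonneg a
  have h4 : 1 / (Real.log a + 3) ≤ 1 / ((a.primeFactors.card : ℝ) + 1) :=
    one_div_le_one_div_of_le (by positivity) (by linarith)
  have h5 := h4.trans h2
  rw [le_div_iff₀ haR] at h5
  calc (a : ℝ) / (Real.log a + 3) = 1 / (Real.log a + 3) * a := by ring
    _ ≤ _ := h5

/-- the number of elements of a class -/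
private lemma fin_cls (N a q : ℕ) (ha : 0 < a) :
    (((range (N + 1)).filter (fun n => n ≡ q [MOD a])).card : ℝ) ≤ ((N : ℝ) + 1) / a + 1 := by
  rw [← Nat.count_eq_card_filter_range, Nat.count_modEq_card (N + 1) ha q]
  have h1 : (((N + 1) / a : ℕ) : ℝ) ≤ ((N + 1 : ℕ) : ℝ) / a := Nat.cast_div_le
  push_cast at h1 ⊢
  split_ifs
  · push_cast
    linarith
  · push_cast
    linarith

/-- `a / φ(a)` as a product -/
private lemma Surv_ratio (a : ℕ) (ha : a ≠ 0) :
    (a : ℝ) / a.totient = ∏ p ∈ a.primeFactors, (1 + 1 / ((p : ℝ) - 1)) := by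
  have h1 := LPAP.totient_div a ha
  have h2 : (a : ℝ) / a.totient = ((a.totient : ℝ) / a)⁻¹ := (inv_div _ _).symm
  rw [h2, h1, ← Finset.prod_inv_distrib]
  refine Finset.prod_congr rfl fun p hp => ?_
  have hp2 : (2 : ℝ) ≤ p := by exact_mod_cast (Nat.prime_of_mem_primeFactors hp).two_le
  have h3 : (p : ℝ) ≠ 0 := by linarith
  have h4 : (p : ℝ) - 1 ≠ 0 := by linarith
  have h5 : 1 - 1 / (p : ℝ) ≠ 0 := by
    have : (1 : ℝ) / p ≤ 1 / 2 := one_div_le_one_div_of_le (by norm_num) hp2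
    linarith
  field_simp
  ring

private lemma Surv_tele (K : ℕ) :
    ∑ n ∈ Finset.Ico 2 (K + 2), 1 / ((n : ℝ) * ((n : ℝ) - 1)) ≤ 1 := by
  have h : ∑ n ∈ Finset.Ico 2 (K + 2), 1 / ((n : ℝ) * ((n : ℝ) - 1)) = 1 - 1 / ((K : ℝ) + 1) := by
    induction K with
    | zero => simp
    | succ K ih =>
      rw [Finset.sum_Ico_succ_top (by omega), ih]
      have h1 : ((K : ℝ) + 1) ≠ 0 := by positivity
      have h2 : ((K : ℝ) + 2) ≠ 0 := by positivity
      push_cast
      have h3 : ((K : ℝ) + 1 + 1) ≠ 0 := by positivity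
      have h4 : ((K : ℝ) + 2 - 1) ≠ 0 := by
        have : ((K : ℝ) + 2 - 1) = K + 1 := by ring
        rw [this]; exact h1
      field_simp
      ring
  rw [h]
  have : (0 : ℝ) ≤ 1 / ((K : ℝ) + 1) := by positivity
  linarith

/-- `∑_{s ≤ K} s / φ(s) ≤ e K` -/
private lemma Surv_sum (K : ℕ) :
    ∑ s ∈ Finset.Icc 1 K, (s : ℝ) / (s.totient : ℝ) ≤ Real.exp 1 * K := by
  set PP := (Finset.Icc 1 K).filter Nat.Prime with hPP
  have hpr : ∀ p ∈ PP, p.Prime := fun p hp => (Finset.mem_filter.mp hp).2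
  have hsub : ∀ s ∈ Finset.Icc 1 K, s.primeFactors ⊆ PP := by
    intro s hs p hp
    obtain ⟨h1, h2⟩ := Finset.mem_Icc.mp hs
    have hp1 := Nat.prime_of_mem_primeFactors hp
    have hp2 := Nat.le_of_dvd (by omega) (Nat.dvd_of_mem_primeFactors hp)
    exact Finset.mem_filter.mpr ⟨Finset.mem_Icc.mpr ⟨hp1.pos, by omega⟩, hp1⟩
  have hfn : ∀ p ∈ PP, (0 : ℝ) ≤ 1 / ((p : ℝ) - 1) := by
    intro p hp
    have hp2 : (2 : ℝ) ≤ p := by exact_mod_cast (hpr p hp).two_le
    have : (0 : ℝ) < (p : ℝ) - 1 := by linarith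
    positivity
  have h1 : ∀ s ∈ Finset.Icc 1 K, (s : ℝ) / (s.totient : ℝ) =
      ∑ T ∈ PP.powerset, (if T ⊆ s.primeFactors then ∏ p ∈ T, 1 / ((p : ℝ) - 1) else 0) := by
    intro s hs
    rw [Surv_ratio s (by have := (Finset.mem_Icc.mp hs).1; omega), Finset.prod_one_add,
      ← Finset.sum_filter]
    refine Finset.sum_congr ?_ fun _ _ => rfl
    ext T
    rw [Finset.mem_filter, Finset.mem_powerset, Finset.mem_powerset]
    exact ⟨fun h => ⟨h.trans (hsub s hs), h⟩, fun h => h.2⟩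
  rw [Finset.sum_congr rfl h1, Finset.sum_comm]
  have h2 : ∀ T ∈ PP.powerset, ∑ s ∈ Finset.Icc 1 K,
      (if T ⊆ s.primeFactors then ∏ p ∈ T, 1 / ((p : ℝ) - 1) else 0) ≤
      K * ∏ p ∈ T, 1 / ((p : ℝ) * ((p : ℝ) - 1)) := by
    intro T hT
    rw [Finset.mem_powerset] at hT
    have hT0 : ∀ p ∈ T, (0 : ℝ) < p := fun p hp => by exact_mod_cast (hpr p (hT hp)).pos
    rw [← Finset.sum_filter, Finset.sum_const, nsmul_eq_mul]
    have hDpos : 0 < ∏ p ∈ T, p := Finset.prod_pos fun p hp => (hpr p (hT hp)).pos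
    have hcard : (((Finset.Icc 1 K).filter (fun s => T ⊆ s.primeFactors)).card : ℝ) ≤
        (K : ℝ) / (∏ p ∈ T, p : ℕ) := by
      have h3 : (Finset.Icc 1 K).filter (fun s => T ⊆ s.primeFactors) ⊆
          (Finset.Ioc 0 K).filter (fun s => (∏ p ∈ T, p) ∣ s) := by
        intro s hs
        obtain ⟨h4, h5⟩ := Finset.mem_filter.mp hs
        obtain ⟨h6, h7⟩ := Finset.mem_Icc.mp h4
        refine Finset.mem_filter.mpr ⟨Finset.mem_Ioc.mpr ⟨by omega, h7⟩, ?_⟩
        refine Finset.prod_primes_dvd s (fun p hp => (hpr p (hT hp)).prime) fun p hp => ?_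
        exact Nat.dvd_of_mem_primeFactors (h5 hp)
      have h8 := Finset.card_le_card h3
      rw [Nat.Ioc_filter_dvd_card_eq_div] at h8
      calc (((Finset.Icc 1 K).filter (fun s => T ⊆ s.primeFactors)).card : ℝ)
          ≤ ((K / ∏ p ∈ T, p : ℕ) : ℝ) := by exact_mod_cast h8
        _ ≤ (K : ℝ) / (∏ p ∈ T, p : ℕ) := Nat.cast_div_le
    have hnn : (0 : ℝ) ≤ ∏ p ∈ T, 1 / ((p : ℝ) - 1) := Finset.prod_nonneg fun p hp => hfn p (hT hp)
    refine (mul_le_mul_of_nonneg_right hcard hnn).trans (le_of_eq ?_)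
    rw [Nat.cast_prod, div_mul_eq_mul_div, mul_div_assoc, ← Finset.prod_div_distrib]
    congr 1
    refine Finset.prod_congr rfl fun p hp => ?_
    have := hT0 p hp
    have hp2 : (2 : ℝ) ≤ p := by exact_mod_cast (hpr p (hT hp)).two_le
    have h4 : (p : ℝ) - 1 ≠ 0 := by linarith
    field_simp
  refine (Finset.sum_le_sum h2).trans ?_
  rw [← Finset.mul_sum, ← Finset.prod_one_add, mul_comm]
  refine mul_le_mul_of_nonneg_right ?_ (Nat.cast_nonneg K)
  have h5 : ∏ p ∈ PP, (1 + 1 / ((p : ℝ) * ((p : ℝ) - 1))) ≤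
      ∏ p ∈ PP, Real.exp (1 / ((p : ℝ) * ((p : ℝ) - 1))) := by
    refine Finset.prod_le_prod ?_ ?_
    · intro p hp
      have hp2 : (2 : ℝ) ≤ p := by exact_mod_cast (hpr p hp).two_le
      have h4 : (0 : ℝ) < (p : ℝ) - 1 := by linarith
      positivity
    · intro p _
      rw [add_comm]
      exact Real.add_one_le_exp _
  refine h5.trans ?_
  rw [← Real.exp_sum]
  refine Real.exp_le_exp.mpr ?_
  refine le_trans ?_ (Surv_tele K)
  refine Finset.sum_le_sum_of_subset_of_nonneg ?_ ?_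
  · intro p hp
    obtain ⟨h6, h7⟩ := Finset.mem_filter.mp hp
    exact Finset.mem_Ico.mpr ⟨h7.two_le, by have := (Finset.mem_Icc.mp h6).2; omega⟩
  · intro p hp _
    have hp2 : (2 : ℝ) ≤ p := by exact_mod_cast (Finset.mem_Ico.mp hp).1
    have h4 : (0 : ℝ) < (p : ℝ) - 1 := by linarith
    positivity

private lemma Surv_sym (K : ℕ) (f : ℕ → ℝ) :
    ∑ s ∈ (Icc (-(K : ℤ)) K).filter (fun s => s ≠ 0), f s.natAbs =
      2 * ∑ s ∈ Finset.Icc 1 K, f s := by
  have h1 : (Icc (-(K : ℤ)) K).filter (fun s => s ≠ 0) =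
      ((Finset.Icc 1 K).image (fun n : ℕ => (n : ℤ))) ∪
        ((Finset.Icc 1 K).image (fun n : ℕ => -(n : ℤ))) := by
    ext s
    simp only [Finset.mem_filter, Finset.mem_Icc, Finset.mem_union, Finset.mem_image]
    constructor
    · rintro ⟨⟨h1, h2⟩, h3⟩
      rcases lt_or_gt_of_ne h3 with h | h
      · right; exact ⟨s.natAbs, by omega, by omega⟩
      · left; exact ⟨s.natAbs, by omega, by omega⟩
    · rintro (⟨n, h1, h2⟩ | ⟨n, h1, h2⟩)
      · omega
      · omega
  rw [h1, Finset.sum_union, Finset.sum_image, Finset.sum_image, two_mul]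
  · congr 1
    refine Finset.sum_congr rfl fun n _ => ?_
    simp
  · intro x _ y _ h
    simpa using h
  · intro x _ y _ h
    simpa using h
  · rw [Finset.disjoint_left]
    intro s hs hs'
    simp only [Finset.mem_image, Finset.mem_Icc] at hs hs'
    obtain ⟨n, h1, h2⟩ := hs
    obtain ⟨m, h3, h4⟩ := hs'
    omega

/-- the numerical conditions -/
private lemma fin_num (c kap X0 : ℝ) (hc : 0 < c) (hk : 0 < kap) : ∀ᶠ a : ℕ in Filter.atTop,
    ∀ X : ℝ, X = kap * (a.totient : ℝ) * Real.log a →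
      X0 ≤ X ∧ 4 ≤ X ∧ Real.log a ≤ 2 * Real.log X ∧ Real.log (4 * X) ≤ 4 * Real.log a ∧
      3 ≤ a ∧ 1 ≤ Real.log a ∧
      (Real.log a + 2) + (√X + 1) * ((4 * X + 1) / a + 1) ≤ c * kap / 8 * a.totient := by
  have hlog : ∀ᶠ x : ℝ in Filter.atTop, Real.log x ≤ x ^ ((1 : ℝ) / 8) := by
    have h6 := (isLittleO_log_rpow_atTop (by norm_num : (0 : ℝ) < 1 / 8)).def
      (c := 1) (by norm_num)
    filter_upwards [h6, Filter.eventually_ge_atTop 1] with x hx hx1
    rw [Real.norm_eq_abs, Real.norm_eq_abs, abs_of_nonneg (Real.log_nonneg hx1),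
      abs_of_nonneg (by positivity), one_mul] at hx
    exact hx
  set D : ℝ := (√kap + 1) * (4 * kap + 2) + 3 with hD
  have hD0 : 0 < D := by
    have := Real.sqrt_nonneg kap
    positivity
  set T0 : ℝ := max (32 * D / (c * kap)) 1 with hT0
  have hrp : ∀ᶠ x : ℝ in Filter.atTop, T0 ≤ x ^ ((1 : ℝ) / 8) :=
    (tendsto_rpow_atTop (by norm_num : (0 : ℝ) < 1 / 8)).eventually_ge_atTop T0
  have hreal := (hlog.and hrp).and ((Filter.eventually_ge_atTop (Real.exp 3)).and
    ((Filter.eventually_ge_atTop (2 * X0 / kap)).and ((Filter.eventually_ge_atTop (8 / kap)).and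
    ((Filter.eventually_ge_atTop (4 / kap ^ 2)).and ((Filter.eventually_ge_atTop (4 * kap)).and
      (Filter.eventually_ge_atTop (3 : ℝ)))))))
  have hnat := tendsto_natCast_atTop_atTop (R := ℝ) |>.eventually hreal
  filter_upwards [hnat] with a ha X hX
  obtain ⟨⟨h1, h2⟩, h3, h4, h5, h6, h7, h8⟩ := ha
  have ha3 : 3 ≤ a := by exact_mod_cast h8
  have ha0 : 0 < a := by omega
  have haR : (0 : ℝ) < a := by exact_mod_cast ha0
  set L := Real.log (a : ℝ) with hL
  have hL3 : 3 ≤ L := by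
    rw [hL, Real.le_log_iff_exp_le haR]
    exact h3
  have htot := fin_tot a ha0
  have htot0 : (0 : ℝ) < (a.totient : ℝ) := by exact_mod_cast Nat.totient_pos.2 ha0
  have htle : (a.totient : ℝ) ≤ a := by exact_mod_cast Nat.totient_le a
  rw [← hL] at htot
  -- a / 2 ≤ φ(a) log a ≤ a log a
  have e1 : (a : ℝ) / 2 ≤ a.totient * L := by
    rw [div_le_iff₀ (by linarith)] at htot
    nlinarith
  have e2 : (a.totient : ℝ) * L ≤ a * L := mul_le_mul_of_nonneg_right htle (by linarith)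
  have hXl : kap * a / 2 ≤ X := by
    rw [hX]
    have := mul_le_mul_of_nonneg_left e1 hk.le
    calc kap * a / 2 = kap * (a / 2) := by ring
      _ ≤ _ := this
      _ = _ := by ring
  have hXu : X ≤ kap * a * L := by
    rw [hX]
    have := mul_le_mul_of_nonneg_left e2 hk.le
    calc kap * a.totient * L = kap * (a.totient * L) := by ring
      _ ≤ _ := this
      _ = _ := by ring
  have hXp : 0 < X := lt_of_lt_of_le (by positivity) hXl
  have hLa : L ≤ a := by
    have := Real.log_le_sub_one_of_pos haR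
    rw [← hL] at this
    linarith
  refine ⟨?_, ?_, ?_, ?_, ha3, by linarith, ?_⟩
  · rw [div_le_iff₀ hk] at h4
    linarith
  · rw [div_le_iff₀ hk] at h5
    linarith
  · have : (a : ℝ) ≤ X ^ 2 := by
      rw [div_le_iff₀ (by positivity)] at h6
      calc (a : ℝ) = 4 * a / 4 := by ring
        _ ≤ (a * kap ^ 2) * a / 4 := by
            have := mul_le_mul_of_nonneg_right h6 haR.le
            linarith
        _ = (kap * a / 2) ^ 2 := by ring
        _ ≤ X ^ 2 := pow_le_pow_left₀ (by positivity) hXl 2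
    have h9 := Real.log_le_log haR this
    rw [Real.log_pow] at h9
    push_cast at h9
    exact h9
  · have : 4 * X ≤ (a : ℝ) ^ 4 := by
      calc 4 * X ≤ 4 * (kap * a * L) := by linarith
        _ ≤ 4 * (kap * a * a) := by
            have : kap * a * L ≤ kap * a * a := mul_le_mul_of_nonneg_left hLa (by positivity)
            linarith
        _ = (4 * kap) * (a : ℝ) ^ 2 := by ring
        _ ≤ a * (a : ℝ) ^ 2 := mul_le_mul_of_nonneg_right h7 (by positivity)
        _ ≤ (a : ℝ) ^ 4 := by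
            have h9 : (a : ℝ) ^ 3 ≤ (a : ℝ) ^ 4 :=
              pow_le_pow_right₀ (by linarith) (by norm_num)
            calc a * (a : ℝ) ^ 2 = (a : ℝ) ^ 3 := by ring
              _ ≤ _ := h9
    have h9 := Real.log_le_log (by positivity) this
    rw [Real.log_pow] at h9
    push_cast at h9
    exact h9
  · -- the error term
    set t : ℝ := (a : ℝ) ^ ((1 : ℝ) / 8) with ht
    have ht1 : 1 ≤ t := (le_max_right _ _).trans h2
    have ht8 : t ^ 8 = a := by
      rw [ht, ← Real.rpow_natCast, ← Real.rpow_mul haR.le]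
      norm_num
    have htD : 32 * D / (c * kap) ≤ t := (le_max_left _ _).trans h2
    have hXt : X ≤ kap * t ^ 9 := by
      calc X ≤ kap * a * L := hXu
        _ ≤ kap * a * t := mul_le_mul_of_nonneg_left h1 (by positivity)
        _ = kap * t ^ 9 := by
            rw [← ht8]
            ring
    have hsq : √X ≤ √kap * t ^ 5 := by
      rw [show √kap * t ^ 5 = √(kap * t ^ 10) by
        rw [Real.sqrt_mul hk.le, show t ^ 10 = (t ^ 5) ^ 2 by ring,
          Real.sqrt_sq (by positivity)]]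
      refine Real.sqrt_le_sqrt (hXt.trans ?_)
      exact mul_le_mul_of_nonneg_left (pow_le_pow_right₀ ht1 (by norm_num)) hk.le
    have hXa : (4 * X + 1) / a + 1 ≤ (4 * kap + 2) * t := by
      have h9 : (4 * X + 1) / a ≤ 4 * kap * t + 1 := by
        rw [div_le_iff₀ haR]
        have : kap * a * L ≤ kap * a * t := mul_le_mul_of_nonneg_left h1 (by positivity)
        nlinarith
      nlinarith
    have h10 : (√X + 1) * ((4 * X + 1) / a + 1) ≤ (√kap + 1) * t ^ 5 * ((4 * kap + 2) * t) := by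
      refine mul_le_mul ?_ hXa (by positivity) (by positivity)
      have h11 : 1 ≤ t ^ 5 := one_le_pow₀ ht1
      linarith
    have h12 : (L + 2) + (√X + 1) * ((4 * X + 1) / a + 1) ≤ D * t ^ 6 := by
      have h13 : t ≤ t ^ 6 := by
        calc t = t ^ 1 := (pow_one t).symm
          _ ≤ t ^ 6 := pow_le_pow_right₀ ht1 (by norm_num)
      calc (L + 2) + (√X + 1) * ((4 * X + 1) / a + 1)
          ≤ (t + 2 * t) + (√kap + 1) * t ^ 5 * ((4 * kap + 2) * t) := by linarith
        _ ≤ 3 * t ^ 6 + (√kap + 1) * (4 * kap + 2) * t ^ 6 := by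
            have : (√kap + 1) * t ^ 5 * ((4 * kap + 2) * t) =
                (√kap + 1) * (4 * kap + 2) * t ^ 6 := by ring
            linarith
        _ = D * t ^ 6 := by
            rw [hD]
            ring
    refine h12.trans ?_
    have h14 : c * kap / 8 * (a / (L + 3)) ≤ c * kap / 8 * a.totient :=
      mul_le_mul_of_nonneg_left htot (by positivity)
    refine le_trans ?_ h14
    rw [← mul_div_assoc, le_div_iff₀ (by linarith)]
    have h15 : D * t ^ 6 * (L + 3) ≤ D * t ^ 6 * (4 * t) :=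
      mul_le_mul_of_nonneg_left (by linarith) (by positivity)
    refine h15.trans ?_
    rw [div_le_iff₀ (by positivity)] at htD
    have h16 : 4 * D ≤ c * kap / 8 * t := by linarith
    calc D * t ^ 6 * (4 * t) = 4 * D * t ^ 7 := by ring
      _ ≤ c * kap / 8 * t * t ^ 7 := mul_le_mul_of_nonneg_right h16 (by positivity)
      _ = c * kap / 8 * a := by
          rw [← ht8]
          ring

private lemma fin_wp {α β : ℝ} {g : ℝ → ℝ} (hg : NB α β g) {X : ℝ} (hX : 1 ≤ X) {n : ℕ}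
    (hn : n ∈ PA X) : wp g X n ≤ Real.log (4 * X) := by
  unfold PA NX at hn
  rw [mem_filter, mem_Icc] at hn
  obtain ⟨⟨h1, h2⟩, hp, _⟩ := hn
  have h3 : (n : ℝ) ≤ 4 * X := (Nat.le_floor_iff (by linarith)).1 h2
  have hn0 : (0 : ℝ) < n := by exact_mod_cast hp.pos
  have h4 : Real.log n ≤ Real.log (4 * X) := Real.log_le_log hn0 h3
  unfold wp
  rw [if_pos hp]
  calc Real.log n * g (Real.log (n / X)) ≤ Real.log n * 1 :=
        mul_le_mul_of_nonneg_left (hg.le_one _) (Real.log_natCast_nonneg n)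
    _ ≤ _ := by linarith

private lemma ratio_mul (m n : ℕ) (hm : 0 < m) (hn : 0 < n) :
    ((m * n : ℕ) : ℝ) / ((m * n).totient : ℝ) ≤
      ((m : ℝ) / (m.totient : ℝ)) * ((n : ℝ) / (n.totient : ℝ)) := by
  have h1 : (0 : ℝ) < (m.totient : ℝ) := by exact_mod_cast Nat.totient_pos.2 hm
  have h2 : (0 : ℝ) < (n.totient : ℝ) := by exact_mod_cast Nat.totient_pos.2 hn
  have h3 : (m.totient : ℝ) * (n.totient : ℝ) ≤ ((m * n).totient : ℝ) := by
    exact_mod_cast Nat.totient_super_multiplicative _ _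
  rw [div_mul_div_comm, Nat.cast_mul]
  exact div_le_div_of_nonneg_left (by positivity) (by positivity) h3

/-- the forms `n + s a` -/
private noncomputable def F1 (a K : ℕ) : Finset (ℤ × ℤ) :=
  ((Icc (-(K : ℤ)) K).filter (fun s => s ≠ 0)).image (fun s => ((1 : ℤ), s * (a : ℤ)))

/-- the forms `s n + h` -/
private noncomputable def F2 (k T : ℕ) : Finset (ℤ × ℤ) :=
  (((Finset.Icc 1 T) ×ˢ (Finset.Icc (-(k : ℤ)) k)).filter
    (fun f : ℕ × ℤ => f.2 ≠ 0 ∧ Nat.gcd f.1 f.2.natAbs = 1)).image (fun f => ((f.1 : ℤ), f.2))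

private lemma mem_F1 {a K : ℕ} {f : ℤ × ℤ} (hf : f ∈ F1 a K) :
    ∃ s : ℤ, s ≠ 0 ∧ |s| ≤ K ∧ f = (1, s * (a : ℤ)) := by
  unfold F1 at hf
  rw [mem_image] at hf
  obtain ⟨s, hs, hsf⟩ := hf
  rw [mem_filter, mem_Icc] at hs
  exact ⟨s, hs.2, abs_le.2 hs.1, hsf.symm⟩

private lemma mem_F2 {k T : ℕ} {f : ℤ × ℤ} (hf : f ∈ F2 k T) :
    ∃ (s : ℕ) (h : ℤ), 1 ≤ s ∧ s ≤ T ∧ h ≠ 0 ∧ |h| ≤ k ∧ Nat.gcd s h.natAbs = 1 ∧
      f = ((s : ℤ), h) := by
  unfold F2 at hf
  rw [mem_image] at hf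
  obtain ⟨⟨s, h⟩, hs, hsf⟩ := hf
  rw [mem_filter, mem_product, mem_Icc, mem_Icc] at hs
  obtain ⟨⟨h1, h2⟩, h3, h4⟩ := hs
  exact ⟨s, h, h1.1, h1.2, h3, abs_le.2 h2, h4, hsf.symm⟩

private lemma sF_F1 (a K : ℕ) (ha : 0 < a) :
    sF (F1 a K) ≤ 2 * Real.exp 1 * (K * ((a : ℝ) / a.totient)) := by
  unfold sF F1
  have haZ : (a : ℤ) ≠ 0 := by exact_mod_cast ha.ne'
  rw [Finset.sum_image]
  swap
  · intro s _ s' _ h
    have h1 : s * (a : ℤ) = s' * (a : ℤ) := (Prod.ext_iff.1 h).2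
    exact mul_right_cancel₀ haZ h1
  have h1 : ∀ s ∈ (Icc (-(K : ℤ)) K).filter (fun s => s ≠ 0),
      ((((1 : ℤ), s * (a : ℤ)).1 * ((1 : ℤ), s * (a : ℤ)).2).natAbs : ℝ) /
        ((((1 : ℤ), s * (a : ℤ)).1 * ((1 : ℤ), s * (a : ℤ)).2).natAbs.totient : ℝ) ≤
      ((a : ℝ) / a.totient) * ((s.natAbs : ℝ) / (s.natAbs.totient : ℝ)) := by
    intro s hs
    have hs0 : s ≠ 0 := (Finset.mem_filter.1 hs).2
    have h2 : (((1 : ℤ), s * (a : ℤ)).1 * ((1 : ℤ), s * (a : ℤ)).2).natAbs = a * s.natAbs := by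
      show (1 * (s * (a : ℤ))).natAbs = a * s.natAbs
      rw [one_mul, Int.natAbs_mul, Int.natAbs_natCast, mul_comm]
    rw [h2]
    exact ratio_mul a s.natAbs ha (Int.natAbs_pos.2 hs0)
  refine (Finset.sum_le_sum h1).trans ?_
  rw [← Finset.mul_sum, Surv_sym K (fun n => (n : ℝ) / (n.totient : ℝ))]
  have h3 := Surv_sum K
  have h4 : (0 : ℝ) ≤ (a : ℝ) / a.totient := by positivity
  calc (a : ℝ) / a.totient * (2 * ∑ s ∈ Finset.Icc 1 K, (s : ℝ) / (s.totient : ℝ))
      ≤ (a : ℝ) / a.totient * (2 * (Real.exp 1 * K)) :=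
        mul_le_mul_of_nonneg_left (by linarith) h4
    _ = _ := by ring

private lemma sF_F2 (k T : ℕ) :
    sF (F2 k T) ≤ (2 * k + 1) * k * Real.exp 1 * T := by
  unfold sF F2
  rw [Finset.sum_image]
  swap
  · rintro ⟨s, h⟩ _ ⟨s', h'⟩ _ he
    have h1 : (s : ℤ) = s' := (Prod.ext_iff.1 he).1
    have h2 : h = h' := (Prod.ext_iff.1 he).2
    have h3 : s = s' := by exact_mod_cast h1
    rw [h2, h3]
  have hnn : ∀ s : ℕ, (0 : ℝ) ≤ (s : ℝ) / (s.totient : ℝ) := fun s => by positivity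
  have h1 : ∀ f ∈ ((Finset.Icc 1 T) ×ˢ (Finset.Icc (-(k : ℤ)) k)).filter
      (fun f : ℕ × ℤ => f.2 ≠ 0 ∧ Nat.gcd f.1 f.2.natAbs = 1),
      (((((f.1 : ℕ) : ℤ), f.2).1 * (((f.1 : ℕ) : ℤ), f.2).2).natAbs : ℝ) /
        (((((f.1 : ℕ) : ℤ), f.2).1 * (((f.1 : ℕ) : ℤ), f.2).2).natAbs.totient : ℝ) ≤
      ((f.1 : ℝ) / (f.1.totient : ℝ)) * k := by
    rintro ⟨s, h⟩ hf
    rw [mem_filter, mem_product, mem_Icc, mem_Icc] at hf
    obtain ⟨⟨h2, h3⟩, h4, _⟩ := hf
    have h5 : ((((s : ℕ) : ℤ), h).1 * (((s : ℕ) : ℤ), h).2).natAbs = s * h.natAbs := by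
      show ((s : ℤ) * h).natAbs = s * h.natAbs
      rw [Int.natAbs_mul, Int.natAbs_natCast]
    have h6 : 0 < h.natAbs := Int.natAbs_pos.2 h4
    have h7 : (h.natAbs : ℝ) / (h.natAbs.totient : ℝ) ≤ k := by
      have h8 : (1 : ℝ) ≤ (h.natAbs.totient : ℝ) := by exact_mod_cast Nat.totient_pos.2 h6
      have h9 : h.natAbs ≤ k := by
        have := abs_le.2 h3
        rw [Int.abs_eq_natAbs] at this
        exact_mod_cast this
      calc (h.natAbs : ℝ) / (h.natAbs.totient : ℝ) ≤ h.natAbs :=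
            div_le_self (Nat.cast_nonneg _) h8
        _ ≤ k := by exact_mod_cast h9
    show (((((s : ℕ) : ℤ), h).1 * (((s : ℕ) : ℤ), h).2).natAbs : ℝ) /
        (((((s : ℕ) : ℤ), h).1 * (((s : ℕ) : ℤ), h).2).natAbs.totient : ℝ) ≤
      ((s : ℝ) / (s.totient : ℝ)) * k
    rw [h5]
    exact (ratio_mul s h.natAbs h2.1 h6).trans (mul_le_mul_of_nonneg_left h7 (hnn s))
  refine (Finset.sum_le_sum h1).trans ?_
  have h2 : ∑ f ∈ ((Finset.Icc 1 T) ×ˢ (Finset.Icc (-(k : ℤ)) k)).filter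
      (fun f : ℕ × ℤ => f.2 ≠ 0 ∧ Nat.gcd f.1 f.2.natAbs = 1),
      ((f.1 : ℝ) / (f.1.totient : ℝ)) * k ≤
      ∑ f ∈ (Finset.Icc 1 T) ×ˢ (Finset.Icc (-(k : ℤ)) k),
        ((f.1 : ℝ) / (f.1.totient : ℝ)) * k :=
    Finset.sum_le_sum_of_subset_of_nonneg (Finset.filter_subset _ _)
      (fun f _ _ => mul_nonneg (hnn f.1) (Nat.cast_nonneg k))
  refine h2.trans ?_
  rw [Finset.sum_product]
  have h3 : ∀ s ∈ Finset.Icc 1 T, ∑ _h ∈ Finset.Icc (-(k : ℤ)) k,
      ((s : ℝ) / (s.totient : ℝ)) * k = ((2 * k + 1) * k) * ((s : ℝ) / (s.totient : ℝ)) := by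
    intro s _
    rw [Finset.sum_const, Int.card_Icc, nsmul_eq_mul]
    have h4 : ((k : ℤ) + 1 - -(k : ℤ)).toNat = 2 * k + 1 := by omega
    rw [h4]
    push_cast
    ring
  rw [Finset.sum_congr rfl h3, ← Finset.mul_sum]
  have h5 := Surv_sum T
  calc ((2 * k + 1) * k) * ∑ s ∈ Finset.Icc 1 T, (s : ℝ) / (s.totient : ℝ)
      ≤ ((2 * k + 1) * k) * (Real.exp 1 * T) := mul_le_mul_of_nonneg_left h5 (by positivity)
    _ = _ := by ring

private lemma sF_union (F G : Finset (ℤ × ℤ)) : sF (F ∪ G) ≤ sF F + sF G := by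
  unfold sF
  have h1 := Finset.sum_union_inter (s₁ := F) (s₂ := G)
    (f := fun f : ℤ × ℤ => ((f.1 * f.2).natAbs : ℝ) / ((f.1 * f.2).natAbs.totient : ℝ))
  have h2 : (0 : ℝ) ≤ ∑ f ∈ F ∩ G,
      ((f.1 * f.2).natAbs : ℝ) / ((f.1 * f.2).natAbs.totient : ℝ) :=
    Finset.sum_nonneg fun f _ => by positivity
  linarith

/-- primitive pairs with positive first entries are proportional only if they are equal -/
private lemma prim_eq {s s' : ℕ} {h h' : ℤ} (hs : 1 ≤ s) (hs' : 1 ≤ s')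
    (hg : Nat.gcd s h.natAbs = 1) (hg' : Nat.gcd s' h'.natAbs = 1)
    (he : (s : ℤ) * h' - (s' : ℤ) * h = 0) : s = s' ∧ h = h' := by
  have h1 : (s : ℤ) * h' = (s' : ℤ) * h := by linarith
  have hc : IsCoprime (s : ℤ) h := by
    rw [Int.isCoprime_iff_gcd_eq_one]
    unfold Int.gcd
    rw [Int.natAbs_natCast]
    exact hg
  have hc' : IsCoprime (s' : ℤ) h' := by
    rw [Int.isCoprime_iff_gcd_eq_one]
    unfold Int.gcd
    rw [Int.natAbs_natCast]
    exact hg'
  have h2 : (s : ℤ) ∣ s' := by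
    have h3 : (s : ℤ) ∣ (s' : ℤ) * h := ⟨h', h1.symm⟩
    exact hc.dvd_of_dvd_mul_right h3
  have h3 : (s' : ℤ) ∣ s := by
    have h4 : (s' : ℤ) ∣ (s : ℤ) * h' := ⟨h, h1⟩
    exact hc'.dvd_of_dvd_mul_right h4
  have h4 : s = s' := Nat.dvd_antisymm (Int.natCast_dvd_natCast.1 h2) (Int.natCast_dvd_natCast.1 h3)
  refine ⟨h4, ?_⟩
  subst h4
  have h5 : (s : ℤ) ≠ 0 := by
    have : s ≠ 0 := by omega
    exact_mod_cast this
  exact (mul_left_cancel₀ h5 h1).symm

private lemma adm_F {a K k T : ℕ} {B : ℝ} (ha : k < a) (hB1 : 1 ≤ B)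
    (hKB : (K : ℝ) * a ≤ B) (hTB : (T : ℝ) ≤ B) (hkB : (k : ℝ) ≤ B) :
    Adm (F1 a K ∪ F2 k T) B := by
  have ha0 : 0 < a := by omega
  have haZ : (a : ℤ) ≠ 0 := by exact_mod_cast ha0.ne'
  refine ⟨?_, ?_, ?_, ?_, ?_⟩
  · intro f hf
    rcases mem_union.1 hf with h | h
    · obtain ⟨s, h1, h2, rfl⟩ := mem_F1 h
      exact one_ne_zero
    · obtain ⟨s, t, h1, h2, h3, h4, h5, rfl⟩ := mem_F2 h
      show (s : ℤ) ≠ 0
      have : s ≠ 0 := by omega
      exact_mod_cast this
  · intro f hf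
    rcases mem_union.1 hf with h | h
    · obtain ⟨s, h1, h2, rfl⟩ := mem_F1 h
      exact mul_ne_zero h1 haZ
    · obtain ⟨s, t, h1, h2, h3, h4, h5, rfl⟩ := mem_F2 h
      exact h3
  · intro f hf
    rcases mem_union.1 hf with h | h
    · obtain ⟨s, h1, h2, rfl⟩ := mem_F1 h
      show |((1 : ℤ) : ℝ)| ≤ B
      rw [Int.cast_one, abs_one]
      exact hB1
    · obtain ⟨s, t, h1, h2, h3, h4, h5, rfl⟩ := mem_F2 h
      show |(((s : ℕ) : ℤ) : ℝ)| ≤ B
      rw [Int.cast_natCast, abs_of_nonneg (Nat.cast_nonneg _)]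
      exact le_trans (by exact_mod_cast h2) hTB
  · intro f hf
    rcases mem_union.1 hf with h | h
    · obtain ⟨s, h1, h2, rfl⟩ := mem_F1 h
      show |((s * (a : ℤ) : ℤ) : ℝ)| ≤ B
      push_cast
      rw [abs_mul, abs_of_nonneg (Nat.cast_nonneg a : (0 : ℝ) ≤ a)]
      have h3 : |(s : ℝ)| ≤ K := by
        have : ((|s| : ℤ) : ℝ) ≤ ((K : ℤ) : ℝ) := by exact_mod_cast h2
        rwa [Int.cast_abs, Int.cast_natCast] at this
      exact (mul_le_mul_of_nonneg_right h3 (Nat.cast_nonneg a)).trans hKB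
    · obtain ⟨s, t, h1, h2, h3, h4, h5, rfl⟩ := mem_F2 h
      show |(t : ℝ)| ≤ B
      have : ((|t| : ℤ) : ℝ) ≤ ((k : ℤ) : ℝ) := by exact_mod_cast h4
      rw [Int.cast_abs, Int.cast_natCast] at this
      exact this.trans hkB
  · have hmix : ∀ (s : ℤ) (s' : ℕ) (t : ℤ), s ≠ 0 → 1 ≤ s' → |t| ≤ k →
        (1 : ℤ) * t - (s' : ℤ) * (s * (a : ℤ)) ≠ 0 := by
      intro s s' t hs hs' ht he
      have h1 : t = (s' : ℤ) * (s * (a : ℤ)) := by linarith
      have h2 : (a : ℤ) ≤ |t| := by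
        rw [h1, abs_mul, abs_mul, abs_of_nonneg (by positivity : (0 : ℤ) ≤ s'),
          abs_of_nonneg (by positivity : (0 : ℤ) ≤ (a : ℤ))]
        have h3 : (1 : ℤ) ≤ |s| := Int.one_le_abs hs
        have h4 : (1 : ℤ) ≤ (s' : ℤ) := by exact_mod_cast hs'
        have h5 : (0 : ℤ) ≤ (a : ℤ) := by positivity
        calc (a : ℤ) = 1 * (1 * (a : ℤ)) := by ring
          _ ≤ (s' : ℤ) * (|s| * (a : ℤ)) := by gcongr
      have h3 : (a : ℤ) ≤ k := h2.trans ht
      have : a ≤ k := by exact_mod_cast h3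
      omega
    intro f hf f' hf' hne
    rcases mem_union.1 hf with h | h
    · obtain ⟨s, h1, h2, rfl⟩ := mem_F1 h
      rcases mem_union.1 hf' with h' | h'
      · obtain ⟨s', h1', h2', rfl⟩ := mem_F1 h'
        intro he
        have h3 : (1 : ℤ) * (s' * (a : ℤ)) - 1 * (s * (a : ℤ)) = 0 := he
        have h4 : (s' - s) * (a : ℤ) = 0 := by linarith
        have h5 : s' - s = 0 := (mul_eq_zero.1 h4).resolve_right haZ
        apply hne
        have h6 : s = s' := by linarith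
        rw [h6]
      · obtain ⟨s', t', h1', h2', h3', h4', h5', rfl⟩ := mem_F2 h'
        exact hmix s s' t' h1 h1' h4'
    · obtain ⟨s, t, h1, h2, h3, h4, h5, rfl⟩ := mem_F2 h
      rcases mem_union.1 hf' with h' | h'
      · obtain ⟨s', h1', h2', rfl⟩ := mem_F1 h'
        intro he
        have h6 : (s : ℤ) * (s' * (a : ℤ)) - 1 * t = 0 := he
        exact hmix s' s t h1' h1 h4 (by linarith)
      · obtain ⟨s', t', h1', h2', h3', h4', h5', rfl⟩ := mem_F2 h'
        intro he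
        obtain ⟨e1, e2⟩ := prim_eq h1 h1' h5 h5' he
        apply hne
        rw [e1, e2]

/-- a good prime `n` is a modulus with large least primes in the fixed classes -/
private lemma good_mod {k T : ℕ} {kap X : ℝ} {F : Finset (ℤ × ℤ)} (hFF : F2 k T ⊆ F)
    (hT : |kap| * Real.log (4 * X) ≤ T - 1) (hT1 : 1 ≤ T) (hk : (k : ℝ) ≤ X / 16)
    (hX : 1 ≤ X) (hsq : √X < X / 8) {n : ℕ} (hn : X / 4 < n) (hnX : (n : ℝ) ≤ 4 * X)
    (hg : gdg F (√X) n) (h : ℤ) (hh0 : h ≠ 0) (hh : |h| ≤ k) (p : ℕ) (hp : p.Prime)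
    (hmod : (p : ℤ) ≡ h [ZMOD n]) (hne : (p : ℤ) ≠ h) : kap * (n : ℝ) * Real.log n < p := by
  by_contra hcon
  push Not at hcon
  obtain ⟨s, hs⟩ : (n : ℤ) ∣ (p : ℤ) - h := Int.modEq_iff_dvd.1 hmod.symm
  have hn0 : (0 : ℝ) < n := by linarith
  have hnZ : (0 : ℤ) < n := by exact_mod_cast hn0
  have hps : (p : ℤ) = n * s + h := by linarith
  have hhR : |(h : ℝ)| ≤ k := by
    have : ((|h| : ℤ) : ℝ) ≤ ((k : ℤ) : ℝ) := by exact_mod_cast hh
    rwa [Int.cast_abs, Int.cast_natCast] at this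
  have hpsR : (p : ℝ) = n * s + h := by exact_mod_cast hps
  have hp0 : (0 : ℝ) < p := by exact_mod_cast hp.pos
  have hh1 := (abs_le.1 hhR).1
  have hh2 := (abs_le.1 hhR).2
  -- `s` is positive
  have hs1 : 1 ≤ s := by
    by_contra h1
    push Not at h1
    have h2 : s ≤ 0 := by omega
    rcases h2.eq_or_lt with h3 | h3
    · apply hne
      rw [hps, h3]
      ring
    · have h4 : s ≤ -1 := by omega
      have h5 : (s : ℝ) ≤ -1 := by exact_mod_cast h4
      have h6 : (n : ℝ) * s ≤ n * (-1) := mul_le_mul_of_nonneg_left h5 hn0.le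
      linarith
  have hs1R : (1 : ℝ) ≤ s := by exact_mod_cast hs1
  have hns : (n : ℝ) ≤ n * s := le_mul_of_one_le_right hn0.le hs1R
  have hpbig : X / 8 ≤ p := by linarith
  -- upper bound for `s`
  obtain ⟨m, rfl⟩ : ∃ m : ℕ, s = m := ⟨s.toNat, by omega⟩
  have hm1 : 1 ≤ m := by exact_mod_cast hs1
  have hmT : m ≤ T := by
    have h1 : (m : ℝ) * n ≤ |kap| * Real.log (4 * X) * n + k := by
      have h2 : (n : ℝ) * ((m : ℤ) : ℝ) = p - h := by linarith
      have h3 : kap * n * Real.log n ≤ |kap| * Real.log (4 * X) * n := by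
        have h4 : kap * Real.log n ≤ |kap| * Real.log (4 * X) := by
          have h5 : 0 ≤ Real.log (n : ℝ) := Real.log_natCast_nonneg n
          have h6 : Real.log (n : ℝ) ≤ Real.log (4 * X) := Real.log_le_log hn0 hnX
          calc kap * Real.log n ≤ |kap| * Real.log n :=
                mul_le_mul_of_nonneg_right (le_abs_self _) h5
            _ ≤ _ := mul_le_mul_of_nonneg_left h6 (abs_nonneg _)
        have h7 := mul_le_mul_of_nonneg_right h4 hn0.le
        linarith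
      have h8 : (m : ℝ) * n = n * ((m : ℤ) : ℝ) := by
        push_cast
        ring
      rw [h8, h2]
      linarith
    have h2 : (m : ℝ) < T := by
      by_contra h3
      push Not at h3
      have h4 : (T : ℝ) * n ≤ m * n := mul_le_mul_of_nonneg_right h3 hn0.le
      have h5 : |kap| * Real.log (4 * X) * n ≤ ((T : ℝ) - 1) * n :=
        mul_le_mul_of_nonneg_right hT hn0.le
      linarith
    have h3 : m < T := by exact_mod_cast h2
    omega
  -- the pair is primitive
  have hgcd : Nat.gcd m h.natAbs = 1 := by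
    by_contra h1
    obtain ⟨r, hr, hrd⟩ := Nat.exists_prime_and_dvd h1
    have h2 : (r : ℤ) ∣ (m : ℤ) := by
      exact_mod_cast hrd.trans (Nat.gcd_dvd_left _ _)
    have h3 : (r : ℤ) ∣ h := Int.natCast_dvd.2 (hrd.trans (Nat.gcd_dvd_right _ _))
    have h4 : (r : ℤ) ∣ (p : ℤ) := by
      rw [hps]
      exact dvd_add (Dvd.dvd.mul_left h2 _) h3
    have h5 : r ∣ p := Int.natCast_dvd_natCast.1 h4
    have h6 : r = p := (Nat.prime_dvd_prime_iff_eq hr hp).1 h5
    have h7 : r ≤ h.natAbs := Nat.le_of_dvd (Int.natAbs_pos.2 hh0)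
      (hrd.trans (Nat.gcd_dvd_right _ _))
    have h8 : (p : ℝ) ≤ k := by
      have h9 : (r : ℝ) ≤ |(h : ℝ)| := by
        have : (r : ℝ) ≤ (h.natAbs : ℝ) := by exact_mod_cast h7
        rwa [Nat.cast_natAbs, Int.cast_abs] at this
      rw [h6] at h9
      linarith
    linarith
  have hmem : ((m : ℤ), h) ∈ F2 k T := by
    unfold F2
    rw [mem_image]
    refine ⟨(m, h), ?_, rfl⟩
    rw [mem_filter, mem_product, mem_Icc, mem_Icc]
    exact ⟨⟨⟨hm1, hmT⟩, abs_le.1 hh⟩, hh0, hgcd⟩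
  obtain ⟨q, hq, hqX, hqd⟩ := hg _ (hFF hmem)
  have h1 : (m : ℤ) * (n : ℤ) + h = p := by
    rw [hps]
    ring
  have h2 : (q : ℤ) ∣ (p : ℤ) := by
    rw [← h1]
    exact hqd
  have h3 : q = p := (Nat.prime_dvd_prime_iff_eq hq hp).1 (Int.natCast_dvd_natCast.1 h2)
  rw [h3] at hqX
  linarith

/-- **FinalG** -/
theorem FinalG_p (h1 : GoodGStmt) (h2 : NBexStmt) : FinalGStmt := by
  classical
  intro k kp lam mu nu hlam hlm hmn
  have hmu : 0 < mu := by linarith
  have hnu : 0 < nu := by linarith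
  set kap : ℝ := mu * Real.exp (-(1 / 10)) with hkap
  have hk : 0 < kap := by positivity
  have hkmu : kap * Real.exp (1 / 10) = mu := by
    rw [hkap, mul_assoc, ← Real.exp_add]
    norm_num
  set α : ℝ := max (1 / 20) (Real.log (lam / kap)) with hα
  have hα1 : 1 / 20 ≤ α := le_max_left _ _
  have hα2 : α < 1 / 10 := by
    rw [hα]
    refine max_lt (by norm_num) ?_
    rcases hlam.eq_or_lt with h | h
    · rw [← h, zero_div, Real.log_zero]
      norm_num
    · rw [Real.log_lt_iff_lt_exp (by positivity), div_lt_iff₀ hk, mul_comm, hkmu]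
      exact hlm
  obtain ⟨g, hg⟩ := h2 α (1 / 10) hα1 hα2 le_rfl
  set La : ℝ := 1 + 4 * Real.exp 1 * nu + (2 * k + 1) * k * Real.exp 1 * (2 * |kp| + 3) with hLa
  have hkp0 : 0 ≤ |kp| := abs_nonneg _
  have he1 : 0 < Real.exp 1 := Real.exp_pos 1
  have hLa1 : 1 ≤ La := by
    have h3 : 0 ≤ 4 * Real.exp 1 * nu := by positivity
    have h4 : (0 : ℝ) ≤ (2 * k + 1) * k * Real.exp 1 * (2 * |kp| + 3) := by positivity
    linarith
  obtain ⟨c, X0, hc, H⟩ := h1 α (1 / 10) g hα1 le_rfl hg La 2 hLa1 (by norm_num)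
  obtain ⟨A0, hA0⟩ := Filter.eventually_atTop.1
    (fin_num c kap (max X0 (nu / kap + 4 * |kp| + 16 * k + 100)) hc hk)
  refine ⟨c * kap / 8, by positivity, max A0 (k + 1), fun a ha => ?_⟩
  have haA : A0 ≤ a := (le_max_left _ _).trans ha
  have hka : k < a := by
    have := (le_max_right _ _).trans ha
    omega
  obtain ⟨hXm, hX4, hlX, hl4, ha3, hL1, herr⟩ := hA0 a haA _ rfl
  set L := Real.log (a : ℝ) with hL
  set X : ℝ := kap * (a.totient : ℝ) * L with hX
  have hX0 : X0 ≤ X := (le_max_left _ _).trans hXm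
  have hXb : nu / kap + 4 * |kp| + 16 * k + 100 ≤ X := (le_max_right _ _).trans hXm
  have hnk : 0 ≤ nu / kap := by positivity
  have hkR : (0 : ℝ) ≤ k := Nat.cast_nonneg k
  have hX100 : 100 ≤ X := by linarith
  have ha0 : 0 < a := by omega
  have haR : (0 : ℝ) < a := by exact_mod_cast ha0
  have htot0 : (0 : ℝ) < (a.totient : ℝ) := by exact_mod_cast Nat.totient_pos.2 ha0
  have hXp : 0 < X := by linarith
  have hlogX : 1 ≤ Real.log X := by
    rw [Real.le_log_iff_exp_le hXp]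
    have := Real.exp_one_lt_d9
    linarith
  have hlog4X : Real.log (4 * X) ≤ 2 * Real.log X := by
    rw [Real.log_mul (by norm_num) hXp.ne']
    have := Real.log_le_log (by norm_num : (0 : ℝ) < 4) hX4
    linarith
  have hlog4X0 : 0 ≤ Real.log (4 * X) := Real.log_nonneg (by linarith)
  set B : ℝ := (a.totient : ℝ) * L with hB
  have hB0 : 0 < B := by positivity
  have hXB : X = kap * B := by
    rw [hX, hB]
    ring
  have hnuB : nu * B ≤ X ^ (2 : ℝ) := by
    have h3 : nu * B = nu / kap * X := by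
      rw [hXB]
      field_simp
    have h4 : X ^ (2 : ℝ) = X * X := by
      rw [Real.rpow_two, pow_two]
    rw [h3, h4]
    exact mul_le_mul_of_nonneg_right (by linarith) hXp.le
  set K : ℕ := ⌊nu * B / a⌋₊ with hK
  have hKle : (K : ℝ) ≤ nu * B / a := Nat.floor_le (by positivity)
  have hKa : (K : ℝ) * a ≤ nu * B := by
    rw [le_div_iff₀ haR] at hKle
    exact hKle
  have hKc : (K : ℝ) * ((a : ℝ) / a.totient) ≤ 2 * nu * Real.log X := by
    calc (K : ℝ) * ((a : ℝ) / a.totient) ≤ nu * B / a * ((a : ℝ) / a.totient) :=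
          mul_le_mul_of_nonneg_right hKle (by positivity)
      _ = nu * L := by
          rw [hB]
          field_simp
      _ ≤ nu * (2 * Real.log X) := mul_le_mul_of_nonneg_left hlX hnu.le
      _ = 2 * nu * Real.log X := by ring
  set T : ℕ := ⌊|kp| * Real.log (4 * X)⌋₊ + 2 with hT
  have hT1 : 1 ≤ T := by omega
  have hTR : (T : ℝ) = (⌊|kp| * Real.log (4 * X)⌋₊ : ℝ) + 2 := by
    rw [hT]
    push_cast
    ring
  have hTle : (T : ℝ) ≤ |kp| * Real.log (4 * X) + 2 := by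
    rw [hTR]
    have := Nat.floor_le (show 0 ≤ |kp| * Real.log (4 * X) by positivity)
    linarith
  have hTge : |kp| * Real.log (4 * X) ≤ T - 1 := by
    rw [hTR]
    have := Nat.lt_floor_add_one (|kp| * Real.log (4 * X))
    linarith
  have hXX : X ≤ X ^ (2 : ℝ) := by
    rw [Real.rpow_two, pow_two]
    nlinarith
  have hTX : (T : ℝ) ≤ X ^ (2 : ℝ) := by
    have h3 : Real.log (4 * X) ≤ 4 * X := by
      have := Real.log_le_sub_one_of_pos (show 0 < 4 * X by linarith)
      linarith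
    have h4 : |kp| * Real.log (4 * X) ≤ |kp| * (4 * X) := mul_le_mul_of_nonneg_left h3 hkp0
    have h5 : (4 * |kp| + 100) * X ≤ X * X := mul_le_mul_of_nonneg_right (by linarith) hXp.le
    rw [Real.rpow_two, pow_two]
    linarith
  set F := F1 a K ∪ F2 k T with hF
  have hAdm : Adm F (X ^ (2 : ℝ)) :=
    adm_F hka (by linarith) (hKa.trans hnuB) hTX (by linarith)
  have hsF : sF F ≤ La * Real.log X := by
    have h3 := sF_union (F1 a K) (F2 k T)
    have h4 := sF_F1 a K ha0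
    have h5 := sF_F2 k T
    have h6 : 2 * Real.exp 1 * ((K : ℝ) * ((a : ℝ) / a.totient)) ≤
        4 * Real.exp 1 * nu * Real.log X := by
      have := mul_le_mul_of_nonneg_left hKc (show 0 ≤ 2 * Real.exp 1 by positivity)
      linarith
    have h7 : (T : ℝ) ≤ (2 * |kp| + 3) * Real.log X := by
      have h8 : |kp| * Real.log (4 * X) ≤ |kp| * (2 * Real.log X) :=
        mul_le_mul_of_nonneg_left hlog4X hkp0
      linarith
    have h8 : (2 * (k : ℝ) + 1) * k * Real.exp 1 * T ≤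
        (2 * k + 1) * k * Real.exp 1 * ((2 * |kp| + 3) * Real.log X) :=
      mul_le_mul_of_nonneg_left h7 (by positivity)
    have h9 : La * Real.log X = Real.log X + 4 * Real.exp 1 * nu * Real.log X +
        (2 * k + 1) * k * Real.exp 1 * ((2 * |kp| + 3) * Real.log X) := by
      rw [hLa]
      ring
    rw [h9]
    linarith
  have hG := H X hX0 F hAdm hsF
  have hsq : √X < X / 8 := by
    rw [Real.sqrt_lt' (by linarith)]
    nlinarith
  -- the good primes of positive weight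
  set G0 := (PA X).filter (fun n => gdg F (√X) n ∧ wp g X n ≠ 0) with hG0
  have hG0c : c * kap / 4 * a.totient ≤ (G0.card : ℝ) := by
    have e1 : ∑ n ∈ (PA X).filter (fun n => gdg F (√X) n), wp g X n ≤
        (G0.card : ℝ) * (4 * L) := by
      have e2 : ∑ n ∈ (PA X).filter (fun n => gdg F (√X) n), wp g X n = ∑ n ∈ G0, wp g X n := by
        rw [hG0, ← Finset.filter_filter, Finset.sum_filter_ne_zero]
      rw [e2, ← nsmul_eq_mul]
      refine Finset.sum_le_card_nsmul _ _ _ fun n hn => ?_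
      exact (fin_wp hg (by linarith) (Finset.mem_filter.1 hn).1).trans hl4
    have e3 := hG.trans e1
    have hL0 : 0 < L := by linarith
    have e4 : c * kap / 4 * a.totient * (4 * L) = c * X := by
      rw [hX]
      ring
    rw [← e4] at e3
    exact le_of_mul_le_mul_right e3 (by positivity)
  -- the exceptions
  set E1 := a.primeFactors with hE1
  set E2 := (range (⌊√X⌋₊ + 1)).biUnion
    (fun q => (range (NX X + 1)).filter (fun n => n ≡ q [MOD a])) with hE2
  have hE1c : (E1.card : ℝ) ≤ L + 2 := fin_omega a ha0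
  have hE2c : (E2.card : ℝ) ≤ (√X + 1) * ((4 * X + 1) / a + 1) := by
    have e1 : (E2.card : ℝ) ≤ ∑ q ∈ range (⌊√X⌋₊ + 1),
        (((range (NX X + 1)).filter (fun n => n ≡ q [MOD a])).card : ℝ) := by
      exact_mod_cast Finset.card_biUnion_le
    refine e1.trans ?_
    have hNX : (NX X : ℝ) ≤ 4 * X := Nat.floor_le (by linarith)
    have e2 : ∀ q ∈ range (⌊√X⌋₊ + 1),
        (((range (NX X + 1)).filter (fun n => n ≡ q [MOD a])).card : ℝ) ≤
          (4 * X + 1) / a + 1 := by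
      intro q _
      refine (fin_cls (NX X) a q ha0).trans ?_
      gcongr
    refine (Finset.sum_le_sum e2).trans ?_
    rw [Finset.sum_const, card_range, nsmul_eq_mul]
    have e3 : ((⌊√X⌋₊ + 1 : ℕ) : ℝ) ≤ √X + 1 := by
      push_cast
      have := Nat.floor_le (Real.sqrt_nonneg X)
      linarith
    exact mul_le_mul_of_nonneg_right e3 (by positivity)
  set G := (G0 \ E1) \ E2 with hGdef
  have hGc : c * kap / 8 * a.totient ≤ (G.card : ℝ) := by
    have e1 : G0.card ≤ G.card + E1.card + E2.card := by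
      have f1 := Finset.le_card_sdiff E2 (G0 \ E1)
      have f2 := Finset.le_card_sdiff E1 G0
      rw [hGdef]
      omega
    have e2 : (G0.card : ℝ) ≤ G.card + E1.card + E2.card := by exact_mod_cast e1
    have e3 : (E1.card : ℝ) + E2.card ≤ c * kap / 8 * a.totient := by linarith
    have e4 : c * kap / 4 * a.totient = c * kap / 8 * a.totient + c * kap / 8 * a.totient := by
      ring
    linarith
  -- the properties of the elements of G
  have hpr : ∀ n ∈ G, n.Prime ∧ ¬ n ∣ a ∧ lam * B < n ∧ (n : ℝ) ≤ mu * B ∧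
      (∀ p' : ℕ, p'.Prime → p' ≡ n [MOD a] → (p' : ℝ) ≤ nu * B → p' = n) ∧
      ∀ h : ℤ, h ≠ 0 → |h| ≤ k → ∀ p : ℕ, p.Prime → (p : ℤ) ≡ h [ZMOD n] → (p : ℤ) ≠ h →
        kp * (n : ℝ) * Real.log n < p := by
    intro n hn
    rw [hGdef, mem_sdiff, mem_sdiff, hG0, mem_filter] at hn
    obtain ⟨⟨⟨hPA, hgd, hwp⟩, hnE1⟩, hnE2⟩ := hn
    have hPA' := hPA
    unfold PA at hPA
    rw [mem_filter, mem_Icc] at hPA
    obtain ⟨⟨hn1, hnN⟩, hnp, hnX⟩ := hPA
    have hn4X : (n : ℝ) ≤ 4 * X := (Nat.le_floor_iff (by linarith)).1 hnN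
    have hn0 : (0 : ℝ) < n := by exact_mod_cast hnp.pos
    have hgne : g (Real.log (n / X)) ≠ 0 := by
      intro h
      apply hwp
      unfold wp
      rw [if_pos hnp, h, mul_zero]
    have hl : α < Real.log (n / X) := by
      by_contra h
      exact hgne (hg.zero _ (Or.inl (not_lt.1 h)))
    have hr : Real.log (n / X) < 1 / 10 := by
      by_contra h
      exact hgne (hg.zero _ (Or.inr (not_lt.1 h)))
    have hnXp : 0 < (n : ℝ) / X := by positivity
    have hlow : lam * B < n := by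
      rcases hlam.eq_or_lt with h | h
      · rw [← h, zero_mul]
        exact hn0
      · have h3 : Real.log (lam / kap) < Real.log (n / X) := (le_max_right _ _).trans_lt hl
        have h4 : lam / kap < n / X := (Real.log_lt_log_iff (by positivity) hnXp).1 h3
        rw [lt_div_iff₀ hXp, hXB] at h4
        have h5 : lam / kap * (kap * B) = lam * B := by field_simp
        rwa [h5] at h4
    have hup : (n : ℝ) ≤ mu * B := by
      rw [Real.log_lt_iff_lt_exp hnXp, div_lt_iff₀ hXp, hXB] at hr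
      have h5 : Real.exp (1 / 10) * (kap * B) = mu * B := by
        rw [← hkmu]
        ring
      rw [h5] at hr
      exact hr.le
    refine ⟨hnp, ?_, hlow, hup, ?_, ?_⟩
    · intro hd
      exact hnE1 (Nat.mem_primeFactors.2 ⟨hnp, hd, ha0.ne'⟩)
    · intro p' hp' hmod hp'u
      by_contra hne
      obtain ⟨s, hs⟩ : (a : ℤ) ∣ (p' : ℤ) - n := by
        have := (Nat.modEq_iff_dvd.1 hmod.symm)
        exact this
      have hs' : (p' : ℤ) = n + s * a := by linarith
      have hs0 : s ≠ 0 := by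
        rintro rfl
        apply hne
        have : (p' : ℤ) = n := by linarith
        exact_mod_cast this
      have hp0 : (0 : ℝ) < p' := by exact_mod_cast hp'.pos
      have hsK : |s| ≤ (K : ℤ) := by
        have e1 : |(s : ℝ)| * a ≤ nu * B := by
          have e2 : (p' : ℝ) = n + s * a := by exact_mod_cast hs'
          have e3 : |(s : ℝ)| * a = |(p' : ℝ) - n| := by
            rw [e2, add_sub_cancel_left, abs_mul, abs_of_pos haR]
          rw [e3, abs_le]
          have e4 : mu * B ≤ nu * B := mul_le_mul_of_nonneg_right hmn hB0.le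
          constructor
          · linarith
          · linarith
        have e5 : ((s.natAbs : ℕ) : ℝ) ≤ nu * B / a := by
          rw [le_div_iff₀ haR, Nat.cast_natAbs, Int.cast_abs]
          exact e1
        have e6 : s.natAbs ≤ K := Nat.le_floor e5
        rw [Int.abs_eq_natAbs]
        exact_mod_cast e6
      have hmem : ((1 : ℤ), s * (a : ℤ)) ∈ F := by
        rw [hF, mem_union]
        left
        unfold F1
        rw [mem_image]
        exact ⟨s, mem_filter.2 ⟨mem_Icc.2 (abs_le.1 hsK), hs0⟩, rfl⟩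
      obtain ⟨q, hq, hqX, hqd⟩ := hgd _ hmem
      have hqd' : (q : ℤ) ∣ (p' : ℤ) := by
        have e1 : (p' : ℤ) = ((1 : ℤ), s * (a : ℤ)).1 * (n : ℤ) + ((1 : ℤ), s * (a : ℤ)).2 := by
          show (p' : ℤ) = 1 * (n : ℤ) + s * (a : ℤ)
          rw [hs']
          ring
        rw [e1]
        exact hqd
      have hqp : q = p' := (Nat.prime_dvd_prime_iff_eq hq hp').1 (by exact_mod_cast hqd')
      apply hnE2
      rw [hE2, mem_biUnion]
      refine ⟨p', ?_, ?_⟩
      · rw [mem_range]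
        have : p' ≤ ⌊√X⌋₊ := Nat.le_floor (by rw [← hqp]; exact hqX)
        omega
      · rw [mem_filter, mem_range]
        exact ⟨by omega, hmod.symm⟩
    · intro h hh0 hh p hp hmod hne
      exact good_mod (k := k) (T := T) (kap := kp) (X := X) (F := F)
        (by rw [hF]; exact subset_union_right) hTge hT1 (by linarith) (by linarith) hsq hnX
        hn4X hgd h hh0 hh p hp hmod hne
  -- the classes
  refine hGc.trans ?_
  have hBm : ∀ x : ℝ, x * (a.totient : ℝ) * L = x * B := fun x => by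
    rw [hB]
    ring
  have hcard : G.card ≤ ((Ico 1 a).filter (fun b => Nat.Coprime a b ∧
      ∃ q : ℕ, q.Prime ∧ q ≡ b [MOD a] ∧ lam * (a.totient : ℝ) * L < q ∧
        (q : ℝ) ≤ mu * (a.totient : ℝ) * L ∧
        (∀ p : ℕ, p.Prime → p ≡ b [MOD a] → (p : ℝ) ≤ nu * (a.totient : ℝ) * L → p = q) ∧
        ∀ h : ℤ, h ≠ 0 → |h| ≤ k → ∀ p : ℕ, p.Prime → (p : ℤ) ≡ h [ZMOD q] → (p : ℤ) ≠ h →
          kp * (q : ℝ) * Real.log q < p)).card := by
    refine Finset.card_le_card_of_injOn (fun n => n % a) ?_ ?_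
    · intro n hn
      obtain ⟨p1, p2, p3, p4, p5, p6⟩ := hpr n hn
      have hcop : Nat.Coprime a (n % a) := by
        have h3 : Nat.Coprime n a := (Nat.Prime.coprime_iff_not_dvd p1).2 p2
        have h4 : Nat.gcd (n % a) a = 1 := by
          rw [← Nat.gcd_rec, Nat.gcd_comm]
          exact h3
        rw [Nat.coprime_comm]
        exact h4
      have hmodn : n ≡ n % a [MOD a] := (Nat.mod_modEq n a).symm
      rw [Finset.mem_coe, mem_filter, mem_Ico]
      refine ⟨⟨?_, Nat.mod_lt _ ha0⟩, hcop, n, p1, hmodn, ?_, ?_, ?_, p6⟩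
      · rw [Nat.one_le_iff_ne_zero]
        intro h0
        simp only at h0
        rw [h0, Nat.coprime_zero_right] at hcop
        omega
      · rw [hBm]
        exact p3
      · rw [hBm]
        exact p4
      · intro p' hp' hmod hle
        rw [hBm] at hle
        exact p5 p' hp' (hmod.trans hmodn.symm) hle
    · intro n hn n' hn' heq
      obtain ⟨p1, p2, p3, p4, p5, _⟩ := hpr n hn
      obtain ⟨q1, q2, q3, q4, q5, _⟩ := hpr n' hn'
      have h3 : n ≡ n' [MOD a] := heq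
      exact q5 n p1 h3 (p4.trans (mul_le_mul_of_nonneg_right hmn hB0.le))
  exact_mod_cast hcard

end Pool.Agent.PTg
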