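import Pool.Agent.Lib.PTg.Defs

/-!
# Module GoodG: many good primes (template `PTr/Good.lean`)
-/

set_option autoImplicit false

namespace Pool.Agent.PTg

open Finset Pool.Agent.GapSieve Pool.Agent.PosProp Pool.Agent.PTr Pool.Agent.PTa

private lemma wp_nn {α β : ℝ} (g : ℝ → ℝ) (hg : NB α β g) (X : ℝ) (n : ℕ) : 0 ≤ wp g X n := by
  unfold wp
  split_ifs with h
  · exact mul_nonneg (Real.log_natCast_nonneg n) (hg.nonneg _)
  · exact le_rfl

private lemma PX_pos (X : ℝ) : 0 < PX X := primorial_pos _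

private lemma prime_coprime_PX {X : ℝ} (hX : 1 ≤ X) {n : ℕ} (hn : n.Prime) (hX4 : X / 4 < n) :
    n.Coprime (PX X) := by
  rw [hn.coprime_iff_not_dvd]
  intro hd
  unfold PX primorial at hd
  rw [hn.prime.dvd_finsetProd_iff] at hd
  obtain ⟨p, hp, hnp⟩ := hd
  rw [mem_filter, mem_range] at hp
  have h1 : n = p := (Nat.prime_dvd_prime_iff_eq hn hp.2).mp hnp
  have h2 : n ≤ ⌊Real.log X / 64⌋₊ := by omega
  have h3 : (n : ℝ) ≤ Real.log X / 64 := by
    have h0 : (0 : ℝ) ≤ Real.log X / 64 := by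
      have := Real.log_nonneg hX
      positivity
    exact le_trans (by exact_mod_cast h2) (Nat.floor_le h0)
  have h4 : Real.log X ≤ X - 1 := Real.log_le_sub_one_of_pos (by linarith)
  linarith

/-- splitting over the classes -/
private lemma split_classes {P : ℕ} (hP : 0 < P) (A : Finset ℕ) (hA : ∀ n ∈ A, n.Coprime P)
    (f : ℕ → ℝ) :
    ∑ n ∈ A, f n = ∑ c ∈ (range P).filter (fun c => c.Coprime P),
      ∑ n ∈ A.filter (fun n => n % P = c), f n := by
  rw [Finset.sum_fiberwise_of_maps_to]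
  intro n hn
  rw [mem_filter, mem_range]
  refine ⟨Nat.mod_lt _ hP, ?_⟩
  have := hA n hn
  unfold Nat.Coprime at this ⊢
  rw [← this, Nat.gcd_comm n P, Nat.gcd_rec P n]

private lemma abstract_good (I : Finset ℕ) (M s G : ℕ → ℝ) (T c0 C1 C2 K L LL A X lam c2 : ℝ)
    (hT : 0 < T) (hcard : (I.card : ℝ) ≤ T) (hc0 : 0 < c0) (hC1 : 0 < C1) (hC2 : 0 < C2)
    (hL : 0 < L) (hLL : 0 < LL) (hA : 0 < A) (hX : 0 < X) (hlam : 1 ≤ lam) (hc2 : 0 < c2)
    (hM : ∀ c ∈ I, M c ≤ C2 * X / T) (hG : ∀ c ∈ I, 0 ≤ G c) (hs0 : ∀ c ∈ I, 0 ≤ s c)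
    (hsum : c0 * X ≤ ∑ c ∈ I, M c) (hs : ∑ c ∈ I, s c ≤ C1 * K * T / LL)
    (hK : K ≤ 2 * lam * L) (hAA : 8 * C1 * C2 * lam / c0 ≤ A)
    (hmain : ∀ c ∈ I, s c ≤ A * L / LL → c0 / 4 * X / T ≤ M c → c2 * M c ≤ G c) :
    c2 * c0 / 2 * X ≤ ∑ c ∈ I, G c := by
  have key : ∀ c ∈ I, c2 * (M c - C2 * X / T * (s c / (A * L / LL)) - c0 / 4 * X / T) ≤ G c := by
    intro c hc
    have hq : 0 < A * L / LL := by positivity
    have hx1 : 0 < C2 * X / T := by positivity
    have hx2 : 0 < c0 / 4 * X / T := by positivity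
    have hr : 0 ≤ s c / (A * L / LL) := div_nonneg (hs0 c hc) hq.le
    by_cases h1 : s c ≤ A * L / LL
    · by_cases h2 : c0 / 4 * X / T ≤ M c
      · have h3 := hmain c hc h1 h2
        have h4 : 0 ≤ C2 * X / T * (s c / (A * L / LL)) := mul_nonneg hx1.le hr
        nlinarith
      · push Not at h2
        have h4 : 0 ≤ C2 * X / T * (s c / (A * L / LL)) := mul_nonneg hx1.le hr
        have h5 : M c - C2 * X / T * (s c / (A * L / LL)) - c0 / 4 * X / T ≤ 0 := by linarith
        exact le_trans (mul_nonpos_of_nonneg_of_nonpos hc2.le h5) (hG c hc)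
    · push Not at h1
      have h3 : 1 ≤ s c / (A * L / LL) := by
        rw [one_le_div hq]
        exact h1.le
      have h4 : C2 * X / T ≤ C2 * X / T * (s c / (A * L / LL)) := le_mul_of_one_le_right hx1.le h3
      have h5 : M c - C2 * X / T * (s c / (A * L / LL)) - c0 / 4 * X / T ≤ 0 := by
        have := hM c hc
        linarith
      exact le_trans (mul_nonpos_of_nonneg_of_nonpos hc2.le h5) (hG c hc)
  have hsumkey := Finset.sum_le_sum key
  refine le_trans ?_ hsumkey
  rw [← Finset.mul_sum, Finset.sum_sub_distrib, Finset.sum_sub_distrib, ← Finset.mul_sum,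
    ← Finset.sum_div, Finset.sum_const, nsmul_eq_mul]
  have e1 : (∑ c ∈ I, s c) / (A * L / LL) ≤ C1 * K * T / LL / (A * L / LL) := by
    apply div_le_div_of_nonneg_right hs
    positivity
  have e2 : C1 * K * T / LL / (A * L / LL) = C1 * K * T / (A * L) := by
    field_simp
  have e3 : C2 * X / T * ((∑ c ∈ I, s c) / (A * L / LL)) ≤ c0 / 4 * X := by
    have e4 : C2 * X / T * ((∑ c ∈ I, s c) / (A * L / LL)) ≤
        C2 * X / T * (C1 * (2 * lam * L) * T / (A * L)) := by
      apply mul_le_mul_of_nonneg_left _ (by positivity)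
      rw [e2] at e1
      refine le_trans e1 ?_
      gcongr
    have e5 : C2 * X / T * (C1 * (2 * lam * L) * T / (A * L)) = 2 * C1 * C2 * lam / A * X := by
      field_simp
    have e6 : 2 * C1 * C2 * lam / A ≤ c0 / 4 := by
      rw [div_le_iff₀ hc0] at hAA
      rw [div_le_iff₀ hA]
      nlinarith
    rw [e5] at e4
    exact le_trans e4 (mul_le_mul_of_nonneg_right e6 hX.le)
  have e7 : (I.card : ℝ) * (c0 / 4 * X / T) ≤ c0 / 4 * X := by
    calc (I.card : ℝ) * (c0 / 4 * X / T) ≤ T * (c0 / 4 * X / T) :=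
          mul_le_mul_of_nonneg_right hcard (by positivity)
      _ = c0 / 4 * X := by field_simp
  have e8 : c0 / 2 * X ≤ (∑ c ∈ I, M c) - C2 * X / T * ((∑ c ∈ I, s c) / (A * L / LL)) -
      (I.card : ℝ) * (c0 / 4 * X / T) := by linarith
  calc c2 * c0 / 2 * X = c2 * (c0 / 2 * X) := by ring
    _ ≤ _ := mul_le_mul_of_nonneg_left e8 hc2.le

/-- the number of forms is at most the weighted number -/
private lemma card_le_sF {F : Finset (ℤ × ℤ)} {B : ℝ} (hF : Adm F B) : (F.card : ℝ) ≤ sF F := by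
  unfold sF
  have h1 : (F.card : ℝ) = ∑ _f ∈ F, (1 : ℝ) := by
    rw [Finset.sum_const, nsmul_eq_mul, mul_one]
  rw [h1]
  refine Finset.sum_le_sum fun f hf => ?_
  have h2 : 0 < (f.1 * f.2).natAbs :=
    Int.natAbs_pos.2 (mul_ne_zero (hF.ne1 f hf) (hF.ne2 f hf))
  have h3 : (0 : ℝ) < ((f.1 * f.2).natAbs.totient : ℝ) := by
    exact_mod_cast Nat.totient_pos.2 h2
  rw [one_le_div h3]
  exact_mod_cast Nat.totient_le _

theorem GoodG_p (h1 : ClassGStmt) (h2 : SurvGStmt) (h3 : BTnStmt) (h4 : LowNStmt)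
    (h5 : PXleStmt) : GoodGStmt := by
  intro α β g hα hβ hg lam C0 hlam hC0
  obtain ⟨c0, X1, hc0, H4⟩ := h4 α β g hα hβ hg
  obtain ⟨X2, H2⟩ := h2
  obtain ⟨C2, X3, hC2, H3⟩ := h3 α β g hg
  obtain ⟨A, hA1, hAA⟩ : ∃ A : ℝ, 1 ≤ A ∧ 8 * 2 * C2 * lam / c0 ≤ A :=
    ⟨max 1 (8 * 2 * C2 * lam / c0), le_max_left _ _, le_max_right _ _⟩
  obtain ⟨c2, X4, hc2, H1⟩ := h1 α β g hg lam C0 A hlam hC0 hA1 (c0 / 4) (by positivity)
  refine ⟨c2 * c0 / 2, max (max (max X1 X2) (max X3 X4)) 16, by positivity, ?_⟩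
  intro X hX F hF hsF
  classical
  have hX1 : X1 ≤ X := le_trans (le_trans (le_max_left _ _) (le_trans (le_max_left _ _)
    (le_max_left _ _))) hX
  have hX2 : X2 ≤ X := le_trans (le_trans (le_max_right _ _) (le_trans (le_max_left _ _)
    (le_max_left _ _))) hX
  have hX3 : X3 ≤ X := le_trans (le_trans (le_max_left _ _) (le_trans (le_max_right _ _)
    (le_max_left _ _))) hX
  have hX4 : X4 ≤ X := le_trans (le_trans (le_max_right _ _) (le_trans (le_max_right _ _)
    (le_max_left _ _))) hX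
  have hX16 : (16 : ℝ) ≤ X := le_trans (le_max_right _ _) hX
  have hXpos : 0 < X := by linarith
  have hL1 : 1 < Real.log X := by
    rw [Real.lt_log_iff_exp_lt hXpos]
    have := Real.exp_one_lt_d9
    linarith
  have hL0 : 0 < Real.log X := by linarith
  have hLL : 0 < Real.log (Real.log X) := Real.log_pos hL1
  have hFc : (F.card : ℝ) ≤ lam * Real.log X := (card_le_sF hF).trans hsF
  have hK2 : sF F ≤ 2 * lam * Real.log X := by
    have h6 : 0 ≤ lam * Real.log X := by positivity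
    linarith
  set P := PX X with hPdef
  have hP : 0 < P := PX_pos X
  have hP2 : (P : ℝ) ^ 2 ≤ X := by
    have h6 : (P : ℝ) ≤ X ^ ((1 : ℝ) / 32) := h5 X (by linarith)
    have h7 : (0 : ℝ) ≤ (P : ℝ) := Nat.cast_nonneg _
    calc (P : ℝ) ^ 2 ≤ (X ^ ((1 : ℝ) / 32)) ^ 2 := by gcongr
      _ = X ^ ((1 : ℝ) / 16) := by
          rw [← Real.rpow_natCast, ← Real.rpow_mul hXpos.le]
          norm_num
      _ ≤ X ^ (1 : ℝ) := Real.rpow_le_rpow_of_exponent_le (by linarith) (by norm_num)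
      _ = X := Real.rpow_one X
  have hcop : ∀ n ∈ PA X, n.Coprime P := by
    intro n hn
    unfold PA at hn
    rw [mem_filter] at hn
    exact prime_coprime_PX (by linarith) hn.2.1 hn.2.2
  have hcop' : ∀ n ∈ (PA X).filter (fun n => gdg F (√X) n), n.Coprime P := by
    intro n hn
    exact hcop n (mem_filter.mp hn).1
  rw [split_classes hP _ hcop' (wp g X)]
  have hT : (0 : ℝ) < (P.totient : ℝ) := by exact_mod_cast Nat.totient_pos.mpr hP
  have hcard : (((range P).filter (fun c => c.Coprime P)).card : ℝ) ≤ (P.totient : ℝ) := by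
    rw [Nat.totient_eq_card_coprime]
    have : (range P).filter (fun c => c.Coprime P) = (range P).filter (fun c => P.Coprime c) := by
      apply filter_congr
      intro c _
      exact Nat.coprime_comm
    rw [this]
  refine abstract_good ((range P).filter (fun c => c.Coprime P))
    (fun c => ∑ n ∈ (PA X).filter (fun n => n % P = c), wp g X n)
    (fun c => ((sitesG F P c).card : ℝ)) _ (P.totient : ℝ) c0 2 C2 (sF F)
    (Real.log X) (Real.log (Real.log X)) A X lam c2 hT hcard hc0 (by norm_num) hC2 hL0 hLL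
    (by linarith) hXpos hlam hc2 ?_ ?_ ?_ ?_ ?_ hK2 hAA ?_
  · intro c hc
    rw [mem_filter, mem_range] at hc
    exact H3 X hX3 P c hP hP2 hc.1 hc.2
  · intro c _
    exact Finset.sum_nonneg fun n _ => wp_nn g hg X n
  · intro c _
    exact Nat.cast_nonneg _
  · have := H4 X hX1
    rwa [split_classes hP _ hcop (wp g X)] at this
  · exact H2 X hX2 F (X ^ C0) hF
  · intro c hc hsc hMc
    rw [mem_filter, mem_range] at hc
    have := H1 X hX4 F hF hFc c hc.1 hc.2 hsc hMc
    refine le_trans this (le_of_eq ?_)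
    apply Finset.sum_congr _ (fun _ _ => rfl)
    ext n
    simp only [mem_filter, ← hPdef]
    tauto

end Pool.Agent.PTg
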