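import Pool.Agent.Lib.PTg.Defs

/-!
# The forms `u t + v` make a hitting system of single unit classes
-/

set_option autoImplicit false

namespace Pool.Agent.PTg

open Finset Pool.Agent.GapSieve Pool.Agent.PosProp Pool.Agent.PTr Pool.Agent.PTa

private lemma hitG_cnt (q : ℕ) (hp : q.Prime) (u v : ℤ) (hu : ¬ (q : ℤ) ∣ u) :
    ∀ [DecidablePred fun t : ℕ => (q : ℤ) ∣ u * t + v],
      ((range q).filter fun t : ℕ => (q : ℤ) ∣ u * t + v).card = 1 := by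
  intro _
  have : Fact q.Prime := ⟨hp⟩
  have hu0 : ((u : ℤ) : ZMod q) ≠ 0 := by
    intro h
    exact hu ((ZMod.intCast_zmod_eq_zero_iff_dvd u q).1 h)
  rw [card_eq_one]
  refine ⟨(-((v : ℤ) : ZMod q) * ((u : ℤ) : ZMod q)⁻¹).val, ?_⟩
  ext t
  rw [mem_filter, mem_range, mem_singleton]
  have key : (q : ℤ) ∣ u * t + v ↔
      ((t : ℕ) : ZMod q) = -((v : ℤ) : ZMod q) * ((u : ℤ) : ZMod q)⁻¹ := by
    rw [← ZMod.intCast_zmod_eq_zero_iff_dvd]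
    push_cast
    constructor
    · intro h
      have h1 : ((u : ℤ) : ZMod q) * ((t : ℕ) : ZMod q) = -((v : ℤ) : ZMod q) := by
        linear_combination h
      rw [← h1]
      field_simp
    · intro h
      rw [h]
      field_simp
      ring
  constructor
  · rintro ⟨h1, h2⟩
    rw [← key.1 h2, ZMod.val_natCast, Nat.mod_eq_of_lt h1]
  · intro h
    rw [h]
    refine ⟨ZMod.val_lt _, ?_⟩
    rw [← h, key, h, ZMod.natCast_zmod_val]

private lemma hitG_coef {F : Finset (ℤ × ℤ)} {f : ℤ × ℤ} (hf : f ∈ F) :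
    (f.1 * f.2).natAbs ∣ DD F :=
  Dvd.dvd.mul_right (Finset.dvd_prod_of_mem (fun f : ℤ × ℤ => (f.1 * f.2).natAbs) hf) _

private lemma hitG_det {F : Finset (ℤ × ℤ)} {f f' : ℤ × ℤ} (hf : f ∈ F) (hf' : f' ∈ F)
    (hne : f ≠ f') : (f.1 * f'.2 - f'.1 * f.2).natAbs ∣ DD F := by
  have h1 : f' ∈ F.erase f := Finset.mem_erase.2 ⟨hne.symm, hf'⟩
  have h2 := Finset.dvd_prod_of_mem
    (fun f' : ℤ × ℤ => (f.1 * f'.2 - f'.1 * f.2).natAbs) h1
  have h3 := Finset.dvd_prod_of_mem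
    (fun f : ℤ × ℤ => ∏ f' ∈ F.erase f, (f.1 * f'.2 - f'.1 * f.2).natAbs) hf
  exact Dvd.dvd.mul_left (h2.trans h3) _

/-- **HitG** -/
theorem HitG_p : HitGStmt := by
  intro F B Z N y s hF hN hinj hs
  have hnd : ∀ q ∈ Qa (DD F) Z y, ¬ q ∣ DD F := fun q hq => (mem_Qa.1 hq).2.2.2
  have hcoef : ∀ q ∈ Qa (DD F) Z y, ∀ i, ¬ (q : ℤ) ∣ (s i).1 * (s i).2 := by
    intro q hq i h
    exact hnd q hq ((Int.natCast_dvd.1 h).trans (hitG_coef (hs i)))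
  have hu : ∀ q ∈ Qa (DD F) Z y, ∀ i, ¬ (q : ℤ) ∣ (s i).1 := fun q hq i h =>
    hcoef q hq i (Dvd.dvd.mul_right h _)
  have hv : ∀ q ∈ Qa (DD F) Z y, ∀ i, ¬ (q : ℤ) ∣ (s i).2 := fun q hq i h =>
    hcoef q hq i (Dvd.dvd.mul_left h _)
  have hun : ∀ q ∈ Qa (DD F) Z y, ∀ (i : Fin N) (t : ℕ),
      (q : ℤ) ∣ (s i).1 * t + (s i).2 → ¬ q ∣ t := by
    intro q hq i t h1 h2
    have h3 : (q : ℤ) ∣ (t : ℤ) := by exact_mod_cast h2
    exact hv q hq i ((Int.dvd_add_right (Dvd.dvd.mul_left h3 _)).1 h1)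
  refine ⟨⟨?_, ?_, ?_, ?_, ?_, ?_⟩, ?_, ?_⟩
  · intro q hq
    exact (mem_Qa.1 hq).2.2.1.pos
  · intro q hq q' hq' hne
    exact (Nat.coprime_primes (mem_Qa.1 hq).2.2.1 (mem_Qa.1 hq').2.2.1).2 hne
  · intro q _ i t
    show (q : ℤ) ∣ (s i).1 * ((t + q : ℕ) : ℤ) + (s i).2 ↔ (q : ℤ) ∣ (s i).1 * (t : ℤ) + (s i).2
    have h1 : (s i).1 * ((t + q : ℕ) : ℤ) + (s i).2 =
        ((s i).1 * (t : ℤ) + (s i).2) + (s i).1 * (q : ℤ) := by
      push_cast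
      ring
    rw [h1]
    exact Int.dvd_add_left (dvd_mul_left _ _)
  · intro q hq i
    unfold hitCount
    exact @hitG_cnt q (mem_Qa.1 hq).2.2.1 (s i).1 (s i).2 (hu q hq i)
      (fun a => Classical.propDecidable _)
  · intro q hq i j t h1 h2
    by_contra hne
    have hne' : s i ≠ s j := fun h => hne (hinj h)
    have h3 : (q : ℤ) ∣ (s i).1 * (s j).2 - (s j).1 * (s i).2 := by
      have h4 : (s i).1 * (s j).2 - (s j).1 * (s i).2 =
          (s i).1 * ((s j).1 * (t : ℤ) + (s j).2) - (s j).1 * ((s i).1 * (t : ℤ) + (s i).2) := by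
        ring
      rw [h4]
      exact Int.dvd_sub (Dvd.dvd.mul_left h2 _) (Dvd.dvd.mul_left h1 _)
    exact hnd q hq ((Int.natCast_dvd.1 h3).trans (hitG_det (hs i) (hs j) hne'))
  · intro q hq
    have := (mem_Qa.1 hq).1
    show N * 1 < q
    omega
  · intro q hq
    exact (mem_Qa.1 hq).2.2.1
  · exact hun

end Pool.Agent.PTg
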