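import Pool.Agent.Lib.PTg.Defs

/-!
# Module SurvG: the number of surviving forms on average over the classes
-/

set_option autoImplicit false

namespace Pool.Agent.PTg

open Finset Pool.Agent.GapSieve Pool.Agent.PosProp Pool.Agent.PTr Pool.Agent.PTa

private lemma Surv_sp_one (z : ℕ) : (range (z + 1)).filter Nat.Prime = LPAP.sp z 1 := by
  ext p
  rw [LPAP.mem_sp, Finset.mem_filter, Finset.mem_range]
  constructor
  · rintro ⟨h1, h2⟩
    exact ⟨by omega, h2, fun h => h2.one_lt.ne' (Nat.dvd_one.mp h)⟩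
  · rintro ⟨h1, h2, _⟩
    exact ⟨by omega, h2⟩

private lemma Surv_primorial (z : ℕ) : primorial z = LPAP.Wp z 1 := by
  unfold primorial LPAP.Wp
  rw [Surv_sp_one]

/-- the local indicator -/
private noncomputable def SurvF (u v : ℤ) (q t : ℕ) : ℝ :=
  if ¬ q ∣ t ∧ ¬ (q : ℤ) ∣ u * t + v then 1 else 0

private lemma SurvF_nonneg (u v : ℤ) (q t : ℕ) : 0 ≤ SurvF u v q t := by
  unfold SurvF
  split_ifs <;> norm_num

private lemma SurvF_le_one (u v : ℤ) (q t : ℕ) : SurvF u v q t ≤ 1 := by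
  unfold SurvF
  split_ifs <;> norm_num

private lemma SurvF_per (u v : ℤ) (q t : ℕ) : SurvF u v q (t + q) = SurvF u v q t := by
  unfold SurvF
  have h1 : q ∣ t + q ↔ q ∣ t := Nat.dvd_add_self_right
  have h2 : (q : ℤ) ∣ u * ((t + q : ℕ) : ℤ) + v ↔ (q : ℤ) ∣ u * t + v := by
    have h3 : u * ((t + q : ℕ) : ℤ) + v = (u * t + v) + u * q := by push_cast; ring
    rw [h3]
    exact dvd_add_left (Dvd.intro_left u rfl)
  simp only [h1, h2]

private lemma SurvF_zero (u v : ℤ) (q : ℕ) : SurvF u v q 0 = 0 := by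
  unfold SurvF
  rw [if_neg]
  simp

private lemma Surv_local (u v : ℤ) (q : ℕ) (hq : q.Prime) :
    ∑ t ∈ range q, SurvF u v q t ≤
      ((q : ℝ) - 1) * (if q ∣ (u * v).natAbs then 1 else 1 - 1 / (q : ℝ)) := by
  have hq0 : (0 : ℝ) < q := by exact_mod_cast hq.pos
  have h0 : (0 : ℕ) ∈ range q := mem_range.mpr hq.pos
  have h1 : ∑ t ∈ range q, SurvF u v q t = ∑ t ∈ (range q).erase 0, SurvF u v q t := by
    rw [← Finset.add_sum_erase _ _ h0, SurvF_zero, zero_add]
  rw [h1]
  have hc1 : (((range q).erase 0).card : ℝ) = (q : ℝ) - 1 := by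
    rw [Finset.card_erase_of_mem h0, card_range, Nat.cast_sub hq.one_lt.le]
    norm_num
  by_cases hd : q ∣ (u * v).natAbs
  · rw [if_pos hd, mul_one]
    calc ∑ t ∈ (range q).erase 0, SurvF u v q t ≤ ∑ t ∈ (range q).erase 0, (1 : ℝ) :=
          Finset.sum_le_sum fun t _ => SurvF_le_one u v q t
      _ = (q : ℝ) - 1 := by rw [Finset.sum_const, nsmul_eq_mul, mul_one, hc1]
  · rw [if_neg hd]
    have hd' : ¬ (q : ℤ) ∣ u * v := fun h => hd (Int.natCast_dvd.mp h)
    have := Fact.mk hq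
    have hu : ((u : ℤ) : ZMod q) ≠ 0 := by
      intro h
      rw [ZMod.intCast_zmod_eq_zero_iff_dvd] at h
      exact hd' (Dvd.dvd.mul_right h v)
    have hv : ((v : ℤ) : ZMod q) ≠ 0 := by
      intro h
      rw [ZMod.intCast_zmod_eq_zero_iff_dvd] at h
      exact hd' (Dvd.dvd.mul_left h u)
    set a1 : ℕ := (-(v : ZMod q) * (u : ZMod q)⁻¹).val with ha1
    have ha1c : ((a1 : ℕ) : ZMod q) = -(v : ZMod q) * (u : ZMod q)⁻¹ := by
      rw [ha1, ZMod.natCast_val, ZMod.cast_id]
    have ha1ne : a1 ≠ 0 := by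
      intro h
      rw [h] at ha1c
      have h2 : -(v : ZMod q) * (u : ZMod q)⁻¹ ≠ 0 :=
        mul_ne_zero (neg_ne_zero.mpr hv) (inv_ne_zero hu)
      exact h2 (by rw [← ha1c]; simp)
    have ha1lt : a1 < q := ZMod.val_lt _
    have ha1m : a1 ∈ (range q).erase 0 := Finset.mem_erase.mpr ⟨ha1ne, mem_range.mpr ha1lt⟩
    have hF : SurvF u v q a1 = 0 := by
      unfold SurvF
      rw [if_neg]
      rintro ⟨_, h2⟩
      apply h2
      rw [← ZMod.intCast_zmod_eq_zero_iff_dvd]
      push_cast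
      rw [ha1c]
      field_simp
      ring
    rw [← Finset.add_sum_erase _ _ ha1m, hF, zero_add]
    have hc2 : ((((range q).erase 0).erase a1).card : ℝ) = (q : ℝ) - 2 := by
      rw [Finset.card_erase_of_mem ha1m, Nat.cast_sub, hc1]
      · norm_num; ring
      · exact Finset.card_pos.mpr ⟨a1, ha1m⟩
    calc ∑ t ∈ ((range q).erase 0).erase a1, SurvF u v q t
        ≤ ∑ t ∈ ((range q).erase 0).erase a1, (1 : ℝ) :=
          Finset.sum_le_sum fun t _ => SurvF_le_one u v q t
      _ = (q : ℝ) - 2 := by rw [Finset.sum_const, nsmul_eq_mul, mul_one, hc2]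
      _ ≤ ((q : ℝ) - 1) * (1 - 1 / (q : ℝ)) := by
          have h3 : ((q : ℝ) - 1) * (1 - 1 / (q : ℝ)) = (q : ℝ) - 2 + 1 / q := by
            field_simp
            ring
          rw [h3]
          have : (0 : ℝ) ≤ 1 / q := by positivity
          linarith

private lemma Surv_count (u v : ℤ) (z : ℕ) :
    (((range (primorial z)).filter (fun c : ℕ => c.Coprime (primorial z) ∧
      Int.gcd (u * c + v) (primorial z) = 1)).card : ℝ) ≤
      ((primorial z).totient : ℝ) * ∏ p ∈ LPAP.sp z (u * v).natAbs, (1 - 1 / (p : ℝ)) := by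
  set Q := (range (z + 1)).filter Nat.Prime with hQ
  have hP : primorial z = ∏ q ∈ Q, q := rfl
  have hpr : ∀ q ∈ Q, q.Prime := fun q hq => (Finset.mem_filter.mp hq).2
  have hdv : ∀ q ∈ Q, q ∣ primorial z := fun q hq => by
    rw [hP]; exact Finset.dvd_prod_of_mem (fun x => x) hq
  have h1 : (((range (primorial z)).filter (fun c : ℕ => c.Coprime (primorial z) ∧
      Int.gcd (u * c + v) (primorial z) = 1)).card : ℝ) ≤
      ∑ c ∈ range (primorial z), ∏ q ∈ Q, SurvF u v q c := by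
    rw [Finset.card_filter, Nat.cast_sum]
    refine Finset.sum_le_sum fun c _ => ?_
    split_ifs with h
    · rw [Nat.cast_one]
      refine le_of_eq (Finset.prod_eq_one fun q hq => ?_).symm
      unfold SurvF
      rw [if_pos]
      constructor
      · intro h2
        have h3 : q ∣ Nat.gcd c (primorial z) := Nat.dvd_gcd h2 (hdv q hq)
        rw [h.1] at h3
        exact (hpr q hq).one_lt.ne' (Nat.dvd_one.mp h3)
      · intro h2
        have h3 : (q : ℤ) ∣ (Int.gcd (u * c + v) (primorial z) : ℤ) :=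
          Int.dvd_coe_gcd h2 (Int.natCast_dvd_natCast.mpr (hdv q hq))
        rw [h.2] at h3
        have h4 : q ∣ 1 := by exact_mod_cast h3
        exact (hpr q hq).one_lt.ne' (Nat.dvd_one.mp h4)
    · rw [Nat.cast_zero]
      exact Finset.prod_nonneg fun q _ => SurvF_nonneg u v q c
  refine h1.trans ?_
  have h2 : ∑ c ∈ range (primorial z), ∏ q ∈ Q, SurvF u v q c =
      ∏ q ∈ Q, ∑ t ∈ range q, SurvF u v q t := by
    rw [hP]
    refine crt_prod Q (fun q hq => (hpr q hq).pos) ?_ (fun q t => SurvF u v q t)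
      (fun q _ t => SurvF_per u v q t)
    intro q hq q' hq' hne
    exact (Nat.coprime_primes (hpr q hq) (hpr q' hq')).mpr hne
  rw [h2]
  have h3 : ∏ q ∈ Q, ∑ t ∈ range q, SurvF u v q t ≤
      ∏ q ∈ Q, (((q : ℝ) - 1) * (if q ∣ (u * v).natAbs then 1 else 1 - 1 / (q : ℝ))) :=
    Finset.prod_le_prod (fun q _ => Finset.sum_nonneg fun t _ => SurvF_nonneg u v q t)
      (fun q hq => Surv_local u v q (hpr q hq))
  refine h3.trans (le_of_eq ?_)
  rw [Finset.prod_mul_distrib]
  have h4 : ∏ q ∈ Q, ((q : ℝ) - 1) = ((primorial z).totient : ℝ) := by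
    have h5 := LPAP.totient_Wp z 1
    rw [← Surv_primorial, ← Surv_sp_one] at h5
    have hPpos : (0 : ℝ) < (primorial z : ℕ) := by exact_mod_cast primorial_pos z
    rw [div_eq_iff hPpos.ne'] at h5
    rw [h5, hP, Nat.cast_prod, ← Finset.prod_mul_distrib]
    refine Finset.prod_congr rfl fun q hq => ?_
    have : (0 : ℝ) < q := by exact_mod_cast (hpr q hq).pos
    field_simp
  have h6 : ∏ q ∈ Q, (if q ∣ (u * v).natAbs then (1 : ℝ) else 1 - 1 / (q : ℝ)) =
      ∏ p ∈ LPAP.sp z (u * v).natAbs, (1 - 1 / (p : ℝ)) := by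
    rw [Finset.prod_ite, Finset.prod_const_one, one_mul]
    refine Finset.prod_congr ?_ fun _ _ => rfl
    ext p
    rw [LPAP.mem_sp, Finset.mem_filter, hQ, Finset.mem_filter, Finset.mem_range]
    constructor
    · rintro ⟨⟨h1, h2⟩, h3⟩; exact ⟨by omega, h2, h3⟩
    · rintro ⟨h1, h2, h3⟩; exact ⟨⟨by omega, h2⟩, h3⟩
  rw [h4, h6]

private lemma Surv_one (u v : ℤ) (hu : u ≠ 0) (hv : v ≠ 0) (z : ℕ) (hz : 1 ≤ z) :
    (((range (primorial z)).filter (fun c : ℕ => c.Coprime (primorial z) ∧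
      Int.gcd (u * c + v) (primorial z) = 1)).card : ℝ) ≤
      ((primorial z).totient : ℝ) / Real.log (z + 1) *
        (((u * v).natAbs : ℝ) / ((u * v).natAbs.totient : ℝ)) := by
  refine (Surv_count u v z).trans ?_
  have ha : (u * v).natAbs ≠ 0 := Int.natAbs_ne_zero.mpr (mul_ne_zero hu hv)
  have h1 := LPAP.totient_Wp_le (w := z) (a := (u * v).natAbs) hz ha
  rw [LPAP.totient_Wp] at h1
  set PI := ∏ p ∈ LPAP.sp z (u * v).natAbs, (1 - 1 / (p : ℝ)) with hPI
  have hat : (0 : ℝ) < ((u * v).natAbs.totient : ℝ) := by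
    exact_mod_cast Nat.totient_pos.mpr (Nat.pos_of_ne_zero ha)
  have ha0 : (0 : ℝ) < ((u * v).natAbs : ℝ) := by exact_mod_cast Nat.pos_of_ne_zero ha
  have h2 : PI ≤ 1 / Real.log (z + 1) * (((u * v).natAbs : ℝ) / ((u * v).natAbs.totient : ℝ)) := by
    have h3 : PI = (PI * (((u * v).natAbs.totient : ℝ) / ((u * v).natAbs : ℝ))) *
        (((u * v).natAbs : ℝ) / ((u * v).natAbs.totient : ℝ)) := by
      field_simp
    rw [h3]
    exact mul_le_mul_of_nonneg_right h1 (by positivity)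
  have hφ : (0 : ℝ) ≤ ((primorial z).totient : ℝ) := Nat.cast_nonneg _
  calc ((primorial z).totient : ℝ) * PI
      ≤ ((primorial z).totient : ℝ) * (1 / Real.log (z + 1) *
          (((u * v).natAbs : ℝ) / ((u * v).natAbs.totient : ℝ))) :=
        mul_le_mul_of_nonneg_left h2 hφ
    _ = _ := by ring

private lemma Surv_swap (F : Finset (ℤ × ℤ)) (P : ℕ) :
    ∑ c ∈ (range P).filter (fun c => c.Coprime P), ((sitesG F P c).card : ℝ) =
      ∑ f ∈ F,
        (((range P).filter (fun c : ℕ => c.Coprime P ∧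
          Int.gcd (f.1 * c + f.2) P = 1)).card : ℝ) := by
  unfold sitesG
  have h1 : ∀ c ∈ (range P).filter (fun c => c.Coprime P),
      (((F.filter (fun f => Int.gcd (f.1 * c + f.2) P = 1)).card : ℕ) : ℝ) =
      ∑ f ∈ F, if Int.gcd (f.1 * c + f.2) P = 1 then (1 : ℝ) else 0 := by
    intro c _
    rw [← Finset.sum_filter, Finset.sum_const, nsmul_eq_mul, mul_one]
  rw [Finset.sum_congr rfl h1, Finset.sum_comm]
  refine Finset.sum_congr rfl fun f _ => ?_
  rw [← Finset.sum_filter, Finset.filter_filter, Finset.sum_const, nsmul_eq_mul, mul_one]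

theorem SurvG_p : SurvGStmt := by
  refine ⟨Real.exp 4096, ?_⟩
  intro X hX F B hF
  have hXpos : 0 < X := (Real.exp_pos _).trans_le hX
  have hL : 4096 ≤ Real.log X := by
    rw [← Real.log_exp 4096]
    exact Real.log_le_log (Real.exp_pos _) hX
  set L := Real.log X with hLdef
  set z := ⌊L / 64⌋₊ with hz
  have hz1 : 1 ≤ z := by
    rw [hz, Nat.one_le_floor_iff]
    linarith
  have hPX : PX X = primorial z := rfl
  rw [hPX, Surv_swap]
  have h1 : ∀ f ∈ F,
      (((range (primorial z)).filter (fun c : ℕ => c.Coprime (primorial z) ∧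
        Int.gcd (f.1 * c + f.2) (primorial z) = 1)).card : ℝ) ≤
      ((primorial z).totient : ℝ) / Real.log (z + 1) *
        (((f.1 * f.2).natAbs : ℝ) / ((f.1 * f.2).natAbs.totient : ℝ)) := by
    intro f hf
    exact Surv_one f.1 f.2 (hF.ne1 f hf) (hF.ne2 f hf) z hz1
  refine (Finset.sum_le_sum h1).trans ?_
  rw [← Finset.mul_sum]
  have hφ : (0 : ℝ) ≤ ((primorial z).totient : ℝ) := Nat.cast_nonneg _
  have hsF : 0 ≤ sF F := Finset.sum_nonneg fun f _ => by positivity
  have hlogz : Real.log L / 2 ≤ Real.log (z + 1) := by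
    have h3 : √L ≤ (z : ℝ) + 1 := by
      have h4 : L / 64 < (z : ℝ) + 1 := Nat.lt_floor_add_one _
      have h5 : √L ≤ L / 64 := by
        have h6 : √L * √L = L := Real.mul_self_sqrt (by linarith)
        have h7 : 64 ≤ √L := by
          apply Real.le_sqrt_of_sq_le
          norm_num
          exact hL
        nlinarith
      linarith
    have h8 : Real.log (√L) = Real.log L / 2 := Real.log_sqrt (by linarith)
    rw [← h8]
    exact Real.log_le_log (Real.sqrt_pos.mpr (by linarith)) h3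
  have hLL : 0 < Real.log L := Real.log_pos (by linarith)
  have hlz : 0 < Real.log ((z : ℝ) + 1) := by linarith
  have hinv : 1 / Real.log ((z : ℝ) + 1) ≤ 2 / Real.log L := by
    rw [div_le_div_iff₀ hlz hLL]
    linarith
  have hsum : ∑ f ∈ F, ((f.1 * f.2).natAbs : ℝ) / ((f.1 * f.2).natAbs.totient : ℝ) = sF F := rfl
  rw [hsum]
  calc ((primorial z).totient : ℝ) / Real.log (z + 1) * sF F
      = (sF F * ((primorial z).totient : ℝ)) * (1 / Real.log ((z : ℝ) + 1)) := by
        ring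
    _ ≤ (sF F * ((primorial z).totient : ℝ)) * (2 / Real.log L) :=
        mul_le_mul_of_nonneg_left hinv (by positivity)
    _ = 2 * sF F * ((primorial z).totient : ℝ) / Real.log L := by ring

end Pool.Agent.PTg
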