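import Pool.Agent.Lib.PTr.Main
import Pool.Agent.Lib.PTa.NBex
import Pool.Agent.Lib.PTa.TBn
import Pool.Agent.Lib.PTa.BTn
import Pool.Agent.Lib.PTa.LowN
import Pool.Agent.Lib.PTg.HitG
import Pool.Agent.Lib.PTg.DDle
import Pool.Agent.Lib.PTg.SurvG
import Pool.Agent.Lib.PTg.ClassG
import Pool.Agent.Lib.PTg.GoodG
import Pool.Agent.Lib.PTg.FinalG

/-!
# Linear forms in a prime variable, assembly
-/

set_option autoImplicit false

namespace Pool.Agent.PTg

open Pool.Agent.PTr Pool.Agent.PTa

/-- Theorem G: linear forms in a prime variable, all with a small prime factor. -/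
theorem theoremG : GoodGStmt :=
  GoodG_p (ClassG_p (PosDensT_p (CoreT_p LevBet_p LevEe_p (LevUu_p LevDh_p) BetM8_p
    Mom8_p UuSq_p GGM_p CountT_p)) (Fam_p (Transfer_p ThLev_p (HatP_p Units_p ClassSum_p) HatZ_p
      (HatBd_p Coset_p KerQ_p Units_p ClassSum_p ThSq_p) FInv_p CondW_p))
      (TBn_p (TB_p Pool.PrT.FIN)) HitG_p DDle_p PXle_p) SurvG_p (BTn_p Lnk.btq) LowN_p PXle_p

/-- Theorem J: isolated primes in residue classes which are moduli with large least primes. -/
theorem theoremJ : FinalGStmt := FinalG_p theoremG NBex_p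

end Pool.Agent.PTg
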